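import Pool.Agent.H13.SM.Defs

/-!
# SM-CJ: values at points

`val_add`, `val_mul`, `val_C`: `val` is a ring homomorphism in `f` (`eval₂`). `cj`: `t` and `t₀` are roots of the irreducible
polynomial `v ∈ F[X]`, so there is an automorphism `σ` of the algebraic closure over `F` with `σ t = t₀` (same minimal
polynomial up to a constant; normal extension, e.g. `Normal.exists_..`/`IsConjRoot`), and
`val g (σ t) (σ x) = σ (val g t x)`. `x' = σ x`. `val_dvd`: `aeval t v = 0` and `C v ∣ g` imply `val g t x = 0`. `not_zero`: if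
`¬ C v ∣ g`, some coefficient of `g` is not divisible by `v`, so its value at `t` is not zero (`v` is the minimal
polynomial of `t` up to a constant), and the polynomial `g(t, X)` is not zero, of degree at most `natDegree g`; its roots.
`sq_dvd`: `v` irreducible over a finite (perfect) field is separable, `v'(t) ≠ 0`; `w(t) = 0` gives `w = v y`,
`w'(t) = v'(t) y(t) = 0`, so `v ∣ y`.
-/

set_option autoImplicit false

open Polynomial

noncomputable section

namespace H13.SM

variable {F : Type} [Field F]

private theorem dvd_of_root (v : F[X]) (hv : Irreducible v) (t : AlgebraicClosure F)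
    (ht : aeval t v = 0) (w : F[X]) (hw : aeval t w = 0) : v ∣ w := by
  have h1 := minpoly.eq_of_irreducible hv ht
  have h2 : minpoly F t ∣ w := minpoly.dvd F t hw
  rw [← h1] at h2
  exact dvd_trans (dvd_mul_right _ _) h2

private theorem val_alg (σ : AlgebraicClosure F ≃ₐ[F] AlgebraicClosure F) (f : F[X][X])
    (t x : AlgebraicClosure F) : val f (σ t) (σ x) = σ (val f t x) := by
  unfold val
  have h1 := Polynomial.hom_eval₂ f ((aeval t : F[X] →ₐ[F] AlgebraicClosure F) :
    F[X] →+* AlgebraicClosure F) (σ : AlgebraicClosure F →+* AlgebraicClosure F) x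
  have h2 : ((σ : AlgebraicClosure F →+* AlgebraicClosure F)).comp
      ((aeval t : F[X] →ₐ[F] AlgebraicClosure F) : F[X] →+* AlgebraicClosure F) =
      ((aeval (σ t) : F[X] →ₐ[F] AlgebraicClosure F) : F[X] →+* AlgebraicClosure F) := by
    refine RingHom.ext fun p => ?_
    exact (Polynomial.aeval_algHom_apply σ t p).symm
  rw [h2] at h1
  exact h1.symm

theorem val_add (f g : F[X][X]) (t x : AlgebraicClosure F) :
    val (f + g) t x = val f t x + val g t x := by
  unfold val
  exact Polynomial.eval₂_add _ _

theorem val_mul (f g : F[X][X]) (t x : AlgebraicClosure F) :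
    val (f * g) t x = val f t x * val g t x := by
  unfold val
  exact Polynomial.eval₂_mul _ _

theorem val_C (c : F[X]) (t x : AlgebraicClosure F) : val (C c) t x = aeval t c := by
  unfold val
  rw [Polynomial.eval₂_C]
  rfl

theorem cj [Finite F] (f : F[X][X]) (v : F[X]) (hv : Irreducible v) (t₀ t x : AlgebraicClosure F)
    (h0 : aeval t₀ v = 0) (ht : aeval t v = 0) (h : SingAt f t x) : ∃ x', SingAt f t₀ x' := by
  have h1 : IsConjRoot F t t₀ := by
    rw [isConjRoot_def, ← minpoly.eq_of_irreducible hv ht, ← minpoly.eq_of_irreducible hv h0]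
  obtain ⟨σ, hσ⟩ := isConjRoot_iff_exists_algEquiv.1 h1.symm
  refine ⟨σ x, ?_⟩
  rw [← hσ]
  obtain ⟨h2, h3, h4⟩ := h
  refine ⟨?_, ?_, ?_⟩
  · rw [val_alg, h2, map_zero]
  · rw [val_alg, h3, map_zero]
  · rw [val_alg, h4, map_zero]

theorem not_zero (v : F[X]) (hv : Irreducible v) (t : AlgebraicClosure F) (ht : aeval t v = 0)
    (g : F[X][X]) (hg : ¬ C v ∣ g) :
    {x : AlgebraicClosure F | val g t x = 0}.Finite ∧
      {x : AlgebraicClosure F | val g t x = 0}.ncard ≤ g.natDegree := by
  classical
  rw [Polynomial.C_dvd_iff_dvd_coeff] at hg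
  push Not at hg
  obtain ⟨i, hi⟩ := hg
  obtain ⟨φ, hφ⟩ : ∃ φ : F[X] →+* AlgebraicClosure F,
    φ = ((aeval t : F[X] →ₐ[F] AlgebraicClosure F) : F[X] →+* AlgebraicClosure F) := ⟨_, rfl⟩
  have hne : g.map φ ≠ 0 := by
    intro h0
    apply hi
    apply dvd_of_root v hv t ht
    have h1 := congrArg (fun r => r.coeff i) h0
    simp only [Polynomial.coeff_map, Polynomial.coeff_zero] at h1
    rw [hφ] at h1
    exact h1
  have hset : {x : AlgebraicClosure F | val g t x = 0} = ((g.map φ).roots.toFinset : Set _) := by
    ext x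
    rw [Finset.mem_coe, Multiset.mem_toFinset, Polynomial.mem_roots hne, Polynomial.IsRoot.def,
      Polynomial.eval_map, Set.mem_setOf_eq, hφ]
    rfl
  rw [hset]
  refine ⟨Finset.finite_toSet _, ?_⟩
  rw [Set.ncard_coe_finset]
  exact (Multiset.toFinset_card_le _).trans ((Polynomial.card_roots' _).trans
    Polynomial.natDegree_map_le)

theorem sq_dvd [Finite F] (v : F[X]) (hv : Irreducible v) (t : AlgebraicClosure F)
    (ht : aeval t v = 0) (w : F[X]) (h1 : aeval t w = 0) (h2 : aeval t (derivative w) = 0) :
    v ^ 2 ∣ w := by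
  obtain ⟨y, hy⟩ := dvd_of_root v hv t ht w h1
  have hsep : v.Separable := PerfectField.separable_of_irreducible hv
  obtain ⟨a, b, hab⟩ := hsep
  have h3 : aeval t b * aeval t (derivative v) = 1 := by
    have h4 := congrArg (fun r => aeval t r) hab
    simp only [map_add, map_mul, ht, mul_zero, zero_add, map_one] at h4
    exact h4
  have h5 : aeval t (derivative v) * aeval t y = 0 := by
    rw [hy, Polynomial.derivative_mul, map_add, map_mul, map_mul, ht, zero_mul, add_zero] at h2
    exact h2
  have h6 : aeval t y = 0 := by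
    have h7 : aeval t b * (aeval t (derivative v) * aeval t y) = 0 := by rw [h5, mul_zero]
    rw [← mul_assoc, h3, one_mul] at h7
    exact h7
  obtain ⟨z, hz⟩ := dvd_of_root v hv t ht y h6
  exact ⟨z, by rw [hy, hz]; ring⟩

/-- every point lies over an irreducible polynomial -/
theorem exists_irr (t : AlgebraicClosure F) : ∃ v : F[X], Irreducible v ∧ v.Monic ∧ aeval t v = 0 := by
  have ht : IsIntegral F t := Algebra.IsIntegral.isIntegral t
  exact ⟨minpoly F t, minpoly.irreducible ht, minpoly.monic ht, minpoly.aeval F t⟩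

end H13.SM
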