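import Pool.Agent.H13.SM.Tr

/-!
# SM-CNG: congruences

The difference of two elements `w`, `w'` of the set satisfies `g ∣ N (w - w')`, so `g ∣ w - w'`. If `E ≤ deg g`, then
`w = w'`. If `deg g ≤ E` and the set contains `w₀`, all elements are `w₀ + g y` with `deg y < E - deg g` (`dl_card`).
-/

set_option autoImplicit false

open Polynomial

noncomputable section

namespace H13.SM

variable {F : Type} [Field F]

theorem cng [Finite F] (N g c : F[X]) (hg : g ≠ 0) (hN : IsCoprime g N) (E : ℕ)
    (hE : g.natDegree ≤ E) :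
    {w : F[X] | w.degree < ((E : ℕ) : WithBot ℕ) ∧ g ∣ c + N * w}.ncard *
      Nat.card F ^ g.natDegree ≤ Nat.card F ^ E := by
  classical
  obtain ⟨hfin, hcard⟩ := dl_card (F := F) (E - g.natDegree)
  have hq : 0 < Nat.card F := Nat.card_pos
  have hmain : {w : F[X] | w.degree < ((E : ℕ) : WithBot ℕ) ∧ g ∣ c + N * w}.ncard ≤
      Nat.card F ^ (E - g.natDegree) := by
    rcases Set.eq_empty_or_nonempty
      {w : F[X] | w.degree < ((E : ℕ) : WithBot ℕ) ∧ g ∣ c + N * w} with h0 | ⟨w₀, hw₀⟩
    · rw [h0, Set.ncard_empty]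
      exact Nat.zero_le _
    · rw [← hcard]
      have hy : ∀ w ∈ {w : F[X] | w.degree < ((E : ℕ) : WithBot ℕ) ∧ g ∣ c + N * w},
          ∃ y : F[X], y.degree < ((E - g.natDegree : ℕ) : WithBot ℕ) ∧ w = w₀ + g * y := by
        intro w hw
        have h1 : g ∣ N * (w - w₀) := by
          have h2 := dvd_sub hw.2 hw₀.2
          have h3 : c + N * w - (c + N * w₀) = N * (w - w₀) := by ring
          rwa [h3] at h2
        obtain ⟨y, hy⟩ := hN.dvd_of_dvd_mul_left h1
        refine ⟨y, ?_, by rw [← hy]; ring⟩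
        rcases eq_or_ne y 0 with rfl | hy0
        · rw [Polynomial.degree_zero]
          exact WithBot.bot_lt_coe _
        · have h4 : (w - w₀).degree < ((E : ℕ) : WithBot ℕ) :=
            lt_of_le_of_lt (Polynomial.degree_sub_le _ _) (max_lt hw.1 hw₀.1)
          rw [hy, Polynomial.degree_mul, Polynomial.degree_eq_natDegree hg,
            Polynomial.degree_eq_natDegree hy0] at h4
          rw [Polynomial.degree_eq_natDegree hy0]
          have h5 : g.natDegree + y.natDegree < E := by exact_mod_cast h4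
          have h6 : y.natDegree < E - g.natDegree := by omega
          exact_mod_cast h6
      choose! φ hφ1 hφ2 using hy
      refine Set.ncard_le_ncard_of_injOn φ (fun w hw => hφ1 w hw) ?_ hfin
      intro w hw w' hw' hEq
      rw [hφ2 w hw, hφ2 w' hw', hEq]
  calc {w : F[X] | w.degree < ((E : ℕ) : WithBot ℕ) ∧ g ∣ c + N * w}.ncard *
        Nat.card F ^ g.natDegree ≤ Nat.card F ^ (E - g.natDegree) * Nat.card F ^ g.natDegree :=
        Nat.mul_le_mul_right _ hmain
    _ = Nat.card F ^ E := by
        rw [← pow_add]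
        congr 1
        omega

theorem cng1 [Finite F] (N g c : F[X]) (hg : g ≠ 0) (hN : IsCoprime g N) (E : ℕ)
    (hE : E ≤ g.natDegree) :
    {w : F[X] | w.degree < ((E : ℕ) : WithBot ℕ) ∧ g ∣ c + N * w}.ncard ≤ 1 := by
  have hsub : {w : F[X] | w.degree < ((E : ℕ) : WithBot ℕ) ∧ g ∣ c + N * w}.Subsingleton := by
    intro w hw w' hw'
    have h1 : g ∣ N * (w - w') := by
      have h2 := dvd_sub hw.2 hw'.2
      have h3 : c + N * w - (c + N * w') = N * (w - w') := by ring
      rwa [h3] at h2
    have h2 : g ∣ w - w' := hN.dvd_of_dvd_mul_left h1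
    have h4 : (w - w').degree < ((E : ℕ) : WithBot ℕ) :=
      lt_of_le_of_lt (Polynomial.degree_sub_le _ _) (max_lt hw.1 hw'.1)
    have h5 : (w - w').degree < g.degree := by
      rw [Polynomial.degree_eq_natDegree hg]
      exact lt_of_lt_of_le h4 (by exact_mod_cast hE)
    exact sub_eq_zero.1 (Polynomial.eq_zero_of_dvd_of_degree_lt h2 h5)
  rcases hsub.eq_empty_or_singleton with h0 | ⟨a, ha⟩
  · rw [h0, Set.ncard_empty]
    exact Nat.zero_le _
  · rw [ha, Set.ncard_singleton]

/-- the number of monic polynomials of degree `e` -/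
theorem mon_card [Finite F] (e : ℕ) : {v : F[X] | v.Monic ∧ v.natDegree = e}.Finite ∧
    {v : F[X] | v.Monic ∧ v.natDegree = e}.ncard = Nat.card F ^ e := by
  obtain ⟨hfin, hcard⟩ := dl_card (F := F) e
  have himg : {v : F[X] | v.Monic ∧ v.natDegree = e} =
      (fun w : F[X] => X ^ e + w) '' {w : F[X] | w.degree < ((e : ℕ) : WithBot ℕ)} := by
    ext v
    constructor
    · rintro ⟨h1, h2⟩
      refine ⟨v - X ^ e, ?_, by ring⟩
      show (v - X ^ e).degree < ((e : ℕ) : WithBot ℕ)
      have h3 : v.degree = ((e : ℕ) : WithBot ℕ) := by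
        rw [Polynomial.degree_eq_natDegree h1.ne_zero, h2]
      rw [← h3]
      refine Polynomial.degree_sub_lt ?_ h1.ne_zero ?_
      · rw [Polynomial.degree_X_pow, h3]
      · rw [h1.leadingCoeff, Polynomial.leadingCoeff_X_pow]
    · rintro ⟨w, hw, rfl⟩
      have hw' : w.degree < ((e : ℕ) : WithBot ℕ) := hw
      refine ⟨Polynomial.monic_X_pow_add hw', ?_⟩
      exact Polynomial.natDegree_eq_of_degree_eq_some (by
        rw [Polynomial.degree_add_eq_left_of_degree_lt (by rwa [Polynomial.degree_X_pow]),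
          Polynomial.degree_X_pow])
  rw [himg]
  refine ⟨hfin.image _, ?_⟩
  rw [Set.ncard_image_of_injective _ (fun a b h => by simpa using h), hcard]

end H13.SM
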