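import Pool.Agent.H94.GG.Defs

/-!
# Chapter SMO of THEOREM G (MP_1bad5e_ag), definitions

`F` is a finite field, `q = Nat.card F`, `k` an algebraic closure.

* `val f t x` : the value of `f ∈ F[t][x]` at a point of `k ^ 2`; `SingAt f t x` : singular point of `f = 0`;
* `SingN N f` : there is a singular point `(t, x)` with `N(t) ≠ 0`;
* `Bx F m E` : the `u ∈ F[t] ^ m` with `deg u_i < E i`; `En m h d i = (m - i) h - d`;
* `pl m N f0 u = f0 + ∑_(i < m) N u_i x ^ i`.
-/

set_option autoImplicit false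

open Polynomial

noncomputable section

namespace H13.SM

/-- value at a point of the plane -/
def val {F : Type} [Field F] (f : F[X][X]) (t x : AlgebraicClosure F) : AlgebraicClosure F :=
  f.eval₂ ((aeval t : F[X] →ₐ[F] AlgebraicClosure F) : F[X] →+* AlgebraicClosure F) x

/-- singular point of the curve `f = 0` -/
def SingAt {F : Type} [Field F] (f : F[X][X]) (t x : AlgebraicClosure F) : Prop :=
  val f t x = 0 ∧ val (derivative f) t x = 0 ∧ val (Pool.Agent.H94.GG.dT f) t x = 0

/-- there is a singular point with `N(t) ≠ 0` -/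
def SingN {F : Type} [Field F] (N : F[X]) (f : F[X][X]) : Prop :=
  ∃ t x : AlgebraicClosure F, aeval t N ≠ 0 ∧ SingAt f t x

/-- the box -/
def Bx (F : Type) [Field F] (m : ℕ) (E : ℕ → ℕ) : Set (Fin m → F[X]) :=
  {u | ∀ i, (u i).degree < ((E i : ℕ) : WithBot ℕ)}

/-- the exponents of the box -/
def En (m h d i : ℕ) : ℕ := (m - i) * h - d

/-- `f0 + ∑ N u_i x ^ i` -/
def pl {F : Type} [Field F] (m : ℕ) (N : F[X]) (f0 : F[X][X]) (u : Fin m → F[X]) : F[X][X] :=
  f0 + ∑ i : Fin m, C (N * u i) * X ^ (i : ℕ)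

end H13.SM
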