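import Pool.Agent.H13.SM.Cng
import Pool.Agent.H13.SM.Cj

/-!
# SM-SMA: singular points over a small place, `f_x ≠ 0` modulo `v`

`t₀` a root of `v`; by `cj` we may assume that the singular point is `(t₀, x)`. `fib` for the coordinate `i₀ = 0`. For fixed
`u_i`, `i ≥ 1`, the derivative `f_x` of `pl m N f0 u` does not depend on `u_0` (the term `C (N u_0)` has derivative
zero); its natDegree is at most `m - 1` (`f0` has degree `m`). If `C v ∤ f_x`, there are at most `m - 1` values `x` with
`f_x(t₀, x) = 0` (`not_zero`). For fixed `x`, if `w`, `w'` are two values of `u_0` with a singular point at `(t₀, x)`: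
`val f` and `val (dT f)` at `(t₀, x)` vanish for both, so `N (w - w')` and its derivative vanish at `t₀`; so
`v ^ 2 ∣ N (w - w')` (`sq_dvd`), `v ^ 2 ∣ w - w'` as `v ∤ N`. So there are at most `q ^ (E 0 - 2 e)` such `w`, `e = deg v`
(`cng` with `g = v ^ 2`, `N = 1`, `c = - w₀`). So `K = (m - 1) q ^ (E 0 - 2 e)` in `fib`.
-/

set_option autoImplicit false

open Polynomial
open Pool.Agent.H94.GG (Fam dT)

noncomputable section

namespace H13.SM

variable {F : Type} [Field F]

private theorem coeff_dT (f : F[X][X]) (i : ℕ) : (dT f).coeff i = derivative (f.coeff i) := by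
  unfold dT
  rw [Polynomial.sum_def, Polynomial.finset_sum_coeff]
  rw [Finset.sum_eq_single i]
  · rw [Polynomial.coeff_monomial, if_pos rfl]
  · intro j _ hj
    rw [Polynomial.coeff_monomial, if_neg hj]
  · intro h
    rw [Polynomial.coeff_monomial, if_pos rfl, Polynomial.notMem_support_iff.1 h,
      Polynomial.derivative_zero]

private theorem dT_add_C (f : F[X][X]) (c : F[X]) : dT (f + C c) = dT f + C (derivative c) := by
  ext1 i
  rw [coeff_dT, Polynomial.coeff_add, Polynomial.coeff_add, coeff_dT, Polynomial.coeff_C,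
    Polynomial.coeff_C, Polynomial.derivative_add]
  split_ifs
  · rfl
  · rw [Polynomial.derivative_zero]

private theorem pl_update {m : ℕ} (hm : 0 < m) (N : F[X]) (f0 : F[X][X]) (u : Fin m → F[X])
    (w w' : F[X]) : pl m N f0 (Function.update u ⟨0, hm⟩ w) =
      pl m N f0 (Function.update u ⟨0, hm⟩ w') + C (N * (w - w')) := by
  classical
  have h1 : ∀ w : F[X], pl m N f0 (Function.update u ⟨0, hm⟩ w) =
      f0 + (C (N * w) + ∑ i ∈ Finset.univ.erase (⟨0, hm⟩ : Fin m),
        C (N * u i) * X ^ (i : ℕ)) := by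
    intro w
    unfold pl
    congr 1
    rw [← Finset.add_sum_erase Finset.univ _ (Finset.mem_univ (⟨0, hm⟩ : Fin m))]
    congr 1
    · rw [Function.update_self, pow_zero, mul_one]
    · refine Finset.sum_congr rfl fun i hi => ?_
      rw [Function.update_of_ne (Finset.ne_of_mem_erase hi)]
  rw [h1 w, h1 w']
  have h2 : N * w = N * w' + N * (w - w') := by ring
  rw [h2, C_add]
  ring

private theorem pl_nat {m h : ℕ} {N : F[X]} {f0 : F[X][X]} (hf0 : Fam m h f0)
    (u : Fin m → F[X]) : (pl m N f0 u).natDegree ≤ m := by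
  unfold pl
  refine (Polynomial.natDegree_add_le _ _).trans (max_le (le_of_eq hf0.deg) ?_)
  refine Polynomial.natDegree_sum_le_of_forall_le _ _ fun i _ => ?_
  refine (Polynomial.natDegree_C_mul_X_pow_le _ _).trans i.2.le

theorem sma [Finite F] (m h : ℕ) (hm : 3 ≤ m) (N : F[X]) (f0 : F[X][X]) (hf0 : Fam m h f0)
    (v : F[X]) (hv : Irreducible v) (hvN : ¬ v ∣ N) (E : ℕ → ℕ) (hE : 2 * v.natDegree ≤ E 0) :
    {u | u ∈ Bx F m E ∧ ¬ C v ∣ derivative (pl m N f0 u) ∧
      ∃ t x, aeval t v = 0 ∧ SingAt (pl m N f0 u) t x}.ncard * Nat.card F ^ (2 * v.natDegree) ≤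
        (m - 1) * (Bx F m E).ncard := by
  classical
  have hq : 0 < Nat.card F := Nat.card_pos
  have hm0 : 0 < m := by omega
  obtain ⟨hBfin, -⟩ := bx_card (F := F) (m := m) (E := E)
  -- a root of `v`
  obtain ⟨t₀, ht₀⟩ : ∃ t₀ : AlgebraicClosure F, aeval t₀ v = 0 := by
    obtain ⟨t₀, h1⟩ := IsAlgClosed.exists_aeval_eq_zero (AlgebraicClosure F) v
      (Polynomial.degree_pos_of_irreducible hv).ne'
    exact ⟨t₀, h1⟩
  obtain ⟨A, hA⟩ : ∃ A : Set (Fin m → F[X]), A = {u | u ∈ Bx F m E ∧
    ¬ C v ∣ derivative (pl m N f0 u) ∧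
      ∃ t x, aeval t v = 0 ∧ SingAt (pl m N f0 u) t x} := ⟨_, rfl⟩
  rw [← hA]
  have hv2 : (v ^ 2).natDegree = 2 * v.natDegree := Polynomial.natDegree_pow v 2
  have key := fib (E := E) (⟨0, hm0⟩ : Fin m) A (by rw [hA]; exact fun u hu => hu.1)
    ((m - 1) * Nat.card F ^ (E 0 - 2 * v.natDegree)) (by
    intro u _
    obtain ⟨g, hg⟩ : ∃ g : F[X][X], g = derivative (pl m N f0 (Function.update u ⟨0, hm0⟩ 0)) :=
      ⟨_, rfl⟩
    have hgw : ∀ w, derivative (pl m N f0 (Function.update u ⟨0, hm0⟩ w)) = g := by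
      intro w
      rw [hg, pl_update hm0 N f0 u w 0, Polynomial.derivative_add, Polynomial.derivative_C,
        add_zero]
    by_cases hgv : C v ∣ g
    · have hempty : {w : F[X] | w.degree < ((E ((⟨0, hm0⟩ : Fin m) : ℕ) : ℕ) : WithBot ℕ) ∧
          Function.update u ⟨0, hm0⟩ w ∈ A} = ∅ := by
        rw [Set.eq_empty_iff_forall_notMem]
        rintro w ⟨-, hw⟩
        rw [hA] at hw
        apply hw.2.1
        rw [hgw]
        exact hgv
      rw [hempty, Set.ncard_empty]
      exact Nat.zero_le _
    · obtain ⟨hRfin, hRcard⟩ := not_zero v hv t₀ ht₀ g hgv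
      have hgdeg : g.natDegree ≤ m - 1 := by
        rw [hg]
        refine (Polynomial.natDegree_derivative_le _).trans ?_
        have := pl_nat (N := N) hf0 (Function.update u ⟨0, hm0⟩ 0)
        omega
      have hTfin : {w : F[X] | w.degree < ((E ((⟨0, hm0⟩ : Fin m) : ℕ) : ℕ) : WithBot ℕ) ∧
          Function.update u ⟨0, hm0⟩ w ∈ A}.Finite :=
        (dl_card (F := F) (E 0)).1.subset fun w hw => hw.1
      have hx : ∀ w ∈ {w : F[X] | w.degree < ((E ((⟨0, hm0⟩ : Fin m) : ℕ) : ℕ) : WithBot ℕ) ∧
          Function.update u ⟨0, hm0⟩ w ∈ A}, ∃ x : AlgebraicClosure F,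
          SingAt (pl m N f0 (Function.update u ⟨0, hm0⟩ w)) t₀ x := by
        rintro w ⟨-, hw⟩
        rw [hA] at hw
        obtain ⟨-, -, t, x, ht, hs⟩ := hw
        exact cj _ v hv t₀ t x ht₀ ht hs
      choose! φ hφ using hx
      rw [Set.ncard_eq_toFinset_card _ hTfin]
      have hmaps : ∀ w ∈ hTfin.toFinset, φ w ∈ hRfin.toFinset := by
        intro w hw
        rw [Set.Finite.mem_toFinset] at hw ⊢
        have h1 := (hφ w hw).2.1
        rw [hgw] at h1
        exact h1
      have hfibre : ∀ x ∈ hRfin.toFinset, (hTfin.toFinset.filter (fun w => φ w = x)).card ≤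
          Nat.card F ^ (E 0 - 2 * v.natDegree) := by
        intro x _
        rcases Finset.eq_empty_or_nonempty (hTfin.toFinset.filter (fun w => φ w = x)) with
          h0 | ⟨w₀, hw₀⟩
        · rw [h0, Finset.card_empty]
          exact Nat.zero_le _
        · rw [Finset.mem_filter, Set.Finite.mem_toFinset] at hw₀
          have hs0 := hφ w₀ hw₀.1
          rw [hw₀.2] at hs0
          have hcong : (hTfin.toFinset.filter (fun w => φ w = x) : Set F[X]) ⊆
              {w : F[X] | w.degree < ((E 0 : ℕ) : WithBot ℕ) ∧ v ^ 2 ∣ -w₀ + 1 * w} := by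
            intro w hw
            rw [Finset.mem_coe, Finset.mem_filter, Set.Finite.mem_toFinset] at hw
            refine ⟨hw.1.1, ?_⟩
            have hs := hφ w hw.1
            rw [hw.2] at hs
            have e1 := pl_update hm0 N f0 u w w₀
            have h1 : aeval t₀ (N * (w - w₀)) = 0 := by
              have h2 := hs.1
              rw [e1, val_add, hs0.1, zero_add, val_C] at h2
              exact h2
            have h2 : aeval t₀ (derivative (N * (w - w₀))) = 0 := by
              have h3 := hs.2.2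
              rw [e1, dT_add_C, val_add, hs0.2.2, zero_add, val_C] at h3
              exact h3
            have h3 := sq_dvd v hv t₀ ht₀ _ h1 h2
            have hcop : IsCoprime (v ^ 2) N := ((hv.coprime_iff_not_dvd).2 hvN).pow_left
            have h4 : v ^ 2 ∣ w - w₀ := hcop.dvd_of_dvd_mul_left h3
            have h5 : -w₀ + 1 * w = w - w₀ := by ring
            rw [h5]
            exact h4
          have h1 := cng 1 (v ^ 2) (-w₀) (pow_ne_zero 2 hv.ne_zero) isCoprime_one_right (E 0)
            (by rw [hv2]; exact hE)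
          rw [hv2] at h1
          have h2 : Nat.card F ^ E 0 = Nat.card F ^ (E 0 - 2 * v.natDegree) *
              Nat.card F ^ (2 * v.natDegree) := by
            rw [← pow_add]
            congr 1
            omega
          rw [h2] at h1
          have h3 := Nat.le_of_mul_le_mul_right h1 (pow_pos hq _)
          refine le_trans ?_ h3
          rw [← Set.ncard_coe_finset]
          exact Set.ncard_le_ncard hcong ((dl_card (F := F) (E 0)).1.subset fun w hw => hw.1)
      have h4 := Finset.card_le_mul_card_image_of_maps_to hmaps _ hfibre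
      refine h4.trans ?_
      rw [mul_comm]
      refine Nat.mul_le_mul_right _ ?_
      rw [← Set.ncard_eq_toFinset_card _ hRfin]
      exact hRcard.trans hgdeg)
  have h5 : Nat.card F ^ E 0 = Nat.card F ^ (2 * v.natDegree) *
      Nat.card F ^ (E 0 - 2 * v.natDegree) := by
    rw [← pow_add]
    congr 1
    omega
  have key2 : A.ncard * Nat.card F ^ E 0 ≤
      (m - 1) * Nat.card F ^ (E 0 - 2 * v.natDegree) * (Bx F m E).ncard := key
  rw [h5, ← mul_assoc, mul_assoc (m - 1), mul_comm (Nat.card F ^ (E 0 - 2 * v.natDegree))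
    (Bx F m E).ncard, ← mul_assoc (m - 1)] at key2
  exact Nat.le_of_mul_le_mul_right key2 (pow_pos hq _)

end H13.SM
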