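import Pool.Agent.H13.SM.Cng

/-!
# SM-SMC: places with `f_x = 0` modulo `v`

`smc_dvd`: the coefficients of `derivative f` are `i * f.coeff i`. If `(m : F) ≠ 0`, then `v` would divide the unit `m`
(coefficient of `x ^ (m - 1)`), impossible. If `(m : F) = 0`, then `(m - 1 : F) = -1` and `(m - 2 : F) = -2` are units and
`m - 2 ≥ 1`. `pl_coeff`: coefficient of `pl`, `i < m`: `f0.coeff i + N u_i`; `i ≥ m`: `f0.coeff i`. `smc_a`: `fib2` with
`i₁ = m - 1`, `i₂ = m - 2` and `cng` (`c = f0.coeff i`, `g = v`). `smc_b`: `d = deg N`, `E (m - 1) + d = h`. Let `e = deg v > E (m - 1)`. If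
`e > h`: `f.coeff (m - 1)` has degree `≤ h` and is divisible by `v`, so it is zero: at most one `u_(m-1)` (`N ≠ 0`); by `fib`
this set has at most `Bx / q ^ E(m-1)` elements. If `h - d < e ≤ h`: for each monic irreducible `v` of degree `e` (we may
take `v` monic) the set with `v ∣ f.coeff (m - 1)`, `v ∣ f.coeff (m - 2)` has at most `Bx / q ^ (E (m - 1) + e)` elements
(`fib2`, `cng1` for `i₁`, `cng` for `i₂`, `e ≤ h ≤ E (m - 2)`); there are at most `q ^ e` such `v` (`mon_card`), and `d`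
values of `e`.
-/

set_option autoImplicit false

open Polynomial
open Pool.Agent.H94.GG (Fam dT)

noncomputable section

namespace H13.SM

variable {F : Type} [Field F]

private theorem pl_monic {m h : ℕ} {N : F[X]} {f0 : F[X][X]} (hf0 : Fam m h f0)
    (u : Fin m → F[X]) (hc : ∀ i, (pl m N f0 u).coeff i =
      f0.coeff i + if hi : i < m then N * u ⟨i, hi⟩ else 0) :
    (pl m N f0 u).Monic ∧ (pl m N f0 u).natDegree = m := by
  have h1 : (pl m N f0 u).coeff m = 1 := by
    rw [hc, dif_neg (lt_irrefl m), add_zero]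
    have h2 := hf0.monic
    rw [Polynomial.Monic, Polynomial.leadingCoeff, hf0.deg] at h2
    exact h2
  have h2 : (pl m N f0 u).natDegree ≤ m := by
    rw [Polynomial.natDegree_le_iff_coeff_eq_zero]
    intro i hi
    rw [hc, dif_neg (by omega), add_zero]
    apply Polynomial.coeff_eq_zero_of_natDegree_lt
    rw [hf0.deg]
    exact hi
  exact ⟨Polynomial.monic_of_natDegree_le_of_coeff_eq_one m h2 h1,
    Polynomial.natDegree_eq_of_le_of_coeff_ne_zero h2 (by rw [h1]; exact one_ne_zero)⟩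

private theorem unit_ne {v : F[X]} (hv : Irreducible v) {c : F} (hc : c ≠ 0) : ¬ v ∣ C c := by
  intro h
  exact hv.not_isUnit (isUnit_of_dvd_unit h (Polynomial.isUnit_C.2 (isUnit_iff_ne_zero.2 hc)))

private theorem dvd_of_mul_C {v a : F[X]} {c : F} (hc : c ≠ 0) (h : v ∣ a * C c) : v ∣ a := by
  have h1 : IsUnit (C c : F[X]) := Polynomial.isUnit_C.2 (isUnit_iff_ne_zero.2 hc)
  exact (h1.dvd_mul_right).1 h

theorem pl_coeff (m : ℕ) (N : F[X]) (f0 : F[X][X]) (u : Fin m → F[X]) (i : ℕ) :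
    (pl m N f0 u).coeff i = f0.coeff i + if hi : i < m then N * u ⟨i, hi⟩ else 0 := by
  unfold pl
  rw [Polynomial.coeff_add, Polynomial.finset_sum_coeff]
  congr 1
  split_ifs with hi
  · rw [Finset.sum_eq_single (⟨i, hi⟩ : Fin m)]
    · rw [Polynomial.coeff_C_mul, Polynomial.coeff_X_pow, if_pos rfl, mul_one]
    · intro j _ hj
      rw [Polynomial.coeff_C_mul, Polynomial.coeff_X_pow, if_neg, mul_zero]
      intro h
      exact hj (Fin.ext h.symm)
    · intro h
      exact absurd (Finset.mem_univ _) h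
  · refine Finset.sum_eq_zero fun j _ => ?_
    rw [Polynomial.coeff_C_mul, Polynomial.coeff_X_pow, if_neg, mul_zero]
    intro h
    exact hi (h ▸ j.2)

theorem smc_dvd (h2 : (2 : F) ≠ 0) (m : ℕ) (hm : 3 ≤ m) (f : F[X][X]) (hf : f.Monic)
    (hd : f.natDegree = m) (v : F[X]) (hv : Irreducible v) (h : C v ∣ derivative f) :
    v ∣ f.coeff (m - 1) ∧ v ∣ f.coeff (m - 2) := by
  rw [Polynomial.C_dvd_iff_dvd_coeff] at h
  have hcf : ∀ n : ℕ, v ∣ f.coeff (n + 1) * C ((n + 1 : ℕ) : F) := by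
    intro n
    have h1 := h n
    rw [Polynomial.coeff_derivative] at h1
    have h3 : (C ((n + 1 : ℕ) : F) : F[X]) = (n : F[X]) + 1 := by
      rw [Polynomial.C_eq_natCast]
      push_cast
      rfl
    rw [h3]
    exact h1
  have hm0 : ((m : ℕ) : F) = 0 := by
    by_contra hcon
    have h1 := hcf (m - 1)
    have h3 : m - 1 + 1 = m := by omega
    rw [h3] at h1
    have h4 : f.coeff m = 1 := by
      have h5 := hf
      rw [Polynomial.Monic, Polynomial.leadingCoeff, hd] at h5
      exact h5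
    rw [h4, one_mul] at h1
    exact unit_ne hv hcon h1
  have h1 : ((m - 1 : ℕ) : F) = -1 := by
    rw [Nat.cast_sub (by omega), hm0, Nat.cast_one, zero_sub]
  have h2' : ((m - 2 : ℕ) : F) = -2 := by
    rw [Nat.cast_sub (by omega), hm0, zero_sub]
    norm_num
  constructor
  · have h3 := hcf (m - 1 - 1)
    have h4 : m - 1 - 1 + 1 = m - 1 := by omega
    rw [h4, h1] at h3
    exact dvd_of_mul_C (by simp) h3
  · have h3 := hcf (m - 2 - 1)
    have h4 : m - 2 - 1 + 1 = m - 2 := by omega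
    rw [h4, h2'] at h3
    exact dvd_of_mul_C (neg_ne_zero.2 h2) h3

theorem smc_a [Finite F] (h2 : (2 : F) ≠ 0) (m h : ℕ) (hm : 3 ≤ m) (N : F[X]) (f0 : F[X][X])
    (hf0 : Fam m h f0) (v : F[X]) (hv : Irreducible v) (hvN : ¬ v ∣ N) (E : ℕ → ℕ)
    (hE1 : v.natDegree ≤ E (m - 1)) (hE2 : v.natDegree ≤ E (m - 2)) :
    {u | u ∈ Bx F m E ∧ C v ∣ derivative (pl m N f0 u)}.ncard * Nat.card F ^ (2 * v.natDegree) ≤
      (Bx F m E).ncard := by
  classical
  have hq : 0 < Nat.card F := Nat.card_pos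
  have hcop : IsCoprime v N := (hv.coprime_iff_not_dvd).2 hvN
  have hb : ∀ i : ℕ, v.natDegree ≤ E i → ∀ c : F[X],
      {w : F[X] | w.degree < ((E i : ℕ) : WithBot ℕ) ∧ w ∈ {w : F[X] | v ∣ c + N * w}}.ncard ≤
        Nat.card F ^ (E i - v.natDegree) := by
    intro i hi c
    have h1 := cng N v c hv.ne_zero hcop (E i) hi
    have h3 : Nat.card F ^ E i = Nat.card F ^ (E i - v.natDegree) * Nat.card F ^ v.natDegree := by
      rw [← pow_add]
      congr 1
      omega
    rw [h3] at h1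
    exact Nat.le_of_mul_le_mul_right h1 (pow_pos hq _)
  have hA : {u | u ∈ Bx F m E ∧ C v ∣ derivative (pl m N f0 u)} ⊆ Bx F m E := fun u hu => hu.1
  have hdvd : ∀ u ∈ {u | u ∈ Bx F m E ∧ C v ∣ derivative (pl m N f0 u)},
      v ∣ (pl m N f0 u).coeff (m - 1) ∧ v ∣ (pl m N f0 u).coeff (m - 2) := by
    intro u hu
    obtain ⟨h3, h4⟩ := pl_monic hf0 u (pl_coeff m N f0 u)
    exact smc_dvd h2 m hm _ h3 h4 v hv hu.2
  have h1 : m - 1 < m := by omega
  have h2' : m - 2 < m := by omega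
  have key := fib2 (E := E) (⟨m - 1, h1⟩ : Fin m) (⟨m - 2, h2'⟩ : Fin m)
    (by rw [Ne, Fin.mk.injEq]; omega)
    {u | u ∈ Bx F m E ∧ C v ∣ derivative (pl m N f0 u)} hA
    {w : F[X] | v ∣ f0.coeff (m - 1) + N * w} {w : F[X] | v ∣ f0.coeff (m - 2) + N * w}
    (fun u hu => by
      have h3 := (hdvd u hu).1
      rw [pl_coeff, dif_pos h1] at h3
      exact h3)
    (fun u hu => by
      have h3 := (hdvd u hu).2
      rw [pl_coeff, dif_pos h2'] at h3
      exact h3)
    (Nat.card F ^ (E (m - 1) - v.natDegree)) (Nat.card F ^ (E (m - 2) - v.natDegree))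
    (hb (m - 1) hE1 _) (hb (m - 2) hE2 _)
  simp only at key
  have h5 : Nat.card F ^ (E (m - 1) + E (m - 2)) =
      Nat.card F ^ (2 * v.natDegree) *
        (Nat.card F ^ (E (m - 1) - v.natDegree) * Nat.card F ^ (E (m - 2) - v.natDegree)) := by
    rw [← pow_add, ← pow_add]
    congr 1
    omega
  rw [h5, ← mul_assoc, mul_comm (Nat.card F ^ (E (m - 1) - v.natDegree) *
    Nat.card F ^ (E (m - 2) - v.natDegree)) (Bx F m E).ncard] at key
  exact Nat.le_of_mul_le_mul_right key (Nat.mul_pos (pow_pos hq _) (pow_pos hq _))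

theorem smc_b [Finite F] (h2 : (2 : F) ≠ 0) (m h : ℕ) (hm : 3 ≤ m) (N : F[X]) (hN : N ≠ 0)
    (f0 : F[X][X]) (hf0 : Fam m h f0) (E : ℕ → ℕ) (hE1 : E (m - 1) + N.natDegree = h)
    (hE2 : h ≤ E (m - 2)) :
    {u | u ∈ Bx F m E ∧ ∃ v : F[X], Irreducible v ∧ ¬ v ∣ N ∧ E (m - 1) < v.natDegree ∧
      C v ∣ derivative (pl m N f0 u)}.ncard * Nat.card F ^ E (m - 1) ≤
        (N.natDegree + 1) * (Bx F m E).ncard := by
  classical
  have hq : 0 < Nat.card F := Nat.card_pos
  have hm1 : m - 1 < m := by omega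
  have hm2 : m - 2 < m := by omega
  obtain ⟨hBfin, -⟩ := bx_card (F := F) (m := m) (E := E)
  -- the two kinds of sets
  obtain ⟨A0, hA0⟩ : ∃ A0 : Set (Fin m → F[X]), A0 = {u | u ∈ Bx F m E ∧
    f0.coeff (m - 1) + N * u ⟨m - 1, hm1⟩ = 0} := ⟨_, rfl⟩
  obtain ⟨Av, hAv⟩ : ∃ Av : F[X] → Set (Fin m → F[X]), ∀ v, Av v = {u | u ∈ Bx F m E ∧
    v ∣ f0.coeff (m - 1) + N * u ⟨m - 1, hm1⟩ ∧ v ∣ f0.coeff (m - 2) + N * u ⟨m - 2, hm2⟩} :=
    ⟨_, fun _ => rfl⟩
  have h0 : A0.ncard * Nat.card F ^ E (m - 1) ≤ (Bx F m E).ncard := by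
    have h3 := fib (E := E) (⟨m - 1, hm1⟩ : Fin m) A0 (by rw [hA0]; exact fun u hu => hu.1) 1 (by
      intro u _
      have hsub : {w : F[X] | w.degree < ((E ((⟨m - 1, hm1⟩ : Fin m) : ℕ) : ℕ) : WithBot ℕ) ∧
          Function.update u ⟨m - 1, hm1⟩ w ∈ A0}.Subsingleton := by
        intro w hw w' hw'
        have h4 := hw.2
        have h5 := hw'.2
        rw [hA0] at h4 h5
        have h6 := h4.2
        have h7 := h5.2
        rw [Function.update_self] at h6 h7
        have h8 : N * (w - w') = 0 := by linear_combination h6 - h7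
        rcases mul_eq_zero.1 h8 with h9 | h9
        · exact absurd h9 hN
        · exact sub_eq_zero.1 h9
      rcases hsub.eq_empty_or_singleton with h4 | ⟨a, ha⟩
      · rw [h4, Set.ncard_empty]
        exact Nat.zero_le _
      · rw [ha, Set.ncard_singleton])
    rw [one_mul] at h3
    exact h3
  have hvb : ∀ v : F[X], v.Monic → Irreducible v → ¬ v ∣ N → E (m - 1) < v.natDegree →
      v.natDegree ≤ h → (Av v).ncard * Nat.card F ^ E (m - 1) * Nat.card F ^ v.natDegree ≤
        (Bx F m E).ncard := by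
    intro v _ hv hvN he1 he2
    have hcop : IsCoprime v N := (hv.coprime_iff_not_dvd).2 hvN
    have k2 : {w : F[X] | w.degree < ((E (m - 2) : ℕ) : WithBot ℕ) ∧
        w ∈ {w : F[X] | v ∣ f0.coeff (m - 2) + N * w}}.ncard ≤
        Nat.card F ^ (E (m - 2) - v.natDegree) := by
      have h3 := cng N v (f0.coeff (m - 2)) hv.ne_zero hcop (E (m - 2)) (he2.trans hE2)
      have h4 : Nat.card F ^ E (m - 2) =
          Nat.card F ^ (E (m - 2) - v.natDegree) * Nat.card F ^ v.natDegree := by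
        rw [← pow_add]
        congr 1
        omega
      rw [h4] at h3
      exact Nat.le_of_mul_le_mul_right h3 (pow_pos hq _)
    have k1 := cng1 N v (f0.coeff (m - 1)) hv.ne_zero hcop (E (m - 1)) he1.le
    have key := fib2 (E := E) (⟨m - 1, hm1⟩ : Fin m) (⟨m - 2, hm2⟩ : Fin m)
      (by rw [Ne, Fin.mk.injEq]; omega) (Av v) (by rw [hAv]; exact fun u hu => hu.1)
      {w : F[X] | v ∣ f0.coeff (m - 1) + N * w} {w : F[X] | v ∣ f0.coeff (m - 2) + N * w}
      (fun u hu => by rw [hAv] at hu; exact hu.2.1)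
      (fun u hu => by rw [hAv] at hu; exact hu.2.2) 1
      (Nat.card F ^ (E (m - 2) - v.natDegree)) k1 k2
    simp only [one_mul] at key
    have h5 : Nat.card F ^ (E (m - 1) + E (m - 2)) =
        Nat.card F ^ E (m - 1) * Nat.card F ^ v.natDegree *
          Nat.card F ^ (E (m - 2) - v.natDegree) := by
      rw [← pow_add, ← pow_add]
      congr 1
      omega
    rw [h5, ← mul_assoc, ← mul_assoc, mul_comm (Nat.card F ^ (E (m - 2) - v.natDegree))
      (Bx F m E).ncard] at key
    exact Nat.le_of_mul_le_mul_right key (pow_pos hq _)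
  -- the set of the monic polynomials of degree `e`
  have hMfin : ∀ e : ℕ, {v : F[X] | v.Monic ∧ v.natDegree = e}.Finite := fun e =>
    (mon_card (F := F) e).1
  have hcov : {u | u ∈ Bx F m E ∧ ∃ v : F[X], Irreducible v ∧ ¬ v ∣ N ∧
      E (m - 1) < v.natDegree ∧ C v ∣ derivative (pl m N f0 u)} ⊆
      A0 ∪ ⋃ e ∈ Finset.Ioc (E (m - 1)) h,
        ⋃ v ∈ (hMfin e).toFinset.filter (fun v => Irreducible v ∧ ¬ v ∣ N), Av v := by
    rintro u ⟨hu, v, hv, hvN, hve, hvd⟩
    obtain ⟨h3, h4⟩ := pl_monic hf0 u (pl_coeff m N f0 u)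
    obtain ⟨h5, h6⟩ := smc_dvd h2 m hm _ h3 h4 v hv hvd
    rw [pl_coeff, dif_pos hm1] at h5
    rw [pl_coeff, dif_pos hm2] at h6
    rcases le_or_gt v.natDegree h with h7 | h7
    · right
      have hlc : v.leadingCoeff⁻¹ ≠ 0 := inv_ne_zero (Polynomial.leadingCoeff_ne_zero.2 hv.ne_zero)
      have hun : IsUnit (C v.leadingCoeff⁻¹ : F[X]) :=
        Polynomial.isUnit_C.2 (isUnit_iff_ne_zero.2 hlc)
      have has : Associated v (v * C v.leadingCoeff⁻¹) := by
        obtain ⟨U, hU⟩ := hun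
        exact ⟨U, by rw [hU]⟩
      have hdeg : (v * C v.leadingCoeff⁻¹).natDegree = v.natDegree :=
        Polynomial.natDegree_mul_C hlc
      rw [Set.mem_iUnion₂]
      refine ⟨v.natDegree, Finset.mem_Ioc.2 ⟨hve, h7⟩, ?_⟩
      rw [Set.mem_iUnion₂]
      refine ⟨v * C v.leadingCoeff⁻¹, ?_, ?_⟩
      · rw [Finset.mem_filter, Set.Finite.mem_toFinset]
        refine ⟨⟨Polynomial.monic_mul_leadingCoeff_inv hv.ne_zero, hdeg⟩, has.irreducible hv, ?_⟩
        intro h8
        exact hvN (has.dvd.trans h8)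
      · rw [hAv]
        exact ⟨hu, has.symm.dvd.trans h5, has.symm.dvd.trans h6⟩
    · left
      rw [hA0]
      refine ⟨hu, ?_⟩
      by_contra hne
      have h8 := Polynomial.natDegree_le_of_dvd h5 hne
      have h9 : (f0.coeff (m - 1)).natDegree ≤ h := by
        have := hf0.coeff (m - 1) hm1
        have h10 : m - (m - 1) = 1 := by omega
        rw [h10, one_mul] at this
        exact this
      have h10 : (N * u ⟨m - 1, hm1⟩).natDegree ≤ h := by
        rcases eq_or_ne (u ⟨m - 1, hm1⟩) 0 with h11 | h11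
        · rw [h11, mul_zero, Polynomial.natDegree_zero]
          exact Nat.zero_le _
        · have h12 := hu ⟨m - 1, hm1⟩
          rw [Polynomial.degree_eq_natDegree h11] at h12
          have h13 : (u ⟨m - 1, hm1⟩).natDegree < E (m - 1) := by exact_mod_cast h12
          have h14 := Polynomial.natDegree_mul_le (p := N) (q := u ⟨m - 1, hm1⟩)
          omega
      have h11 := Polynomial.natDegree_add_le (f0.coeff (m - 1)) (N * u ⟨m - 1, hm1⟩)
      have h12 := max_le h9 h10
      omega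
  have hAvfin : ∀ v, (Av v).Finite := fun v => by
    rw [hAv]
    exact hBfin.subset fun u hu => hu.1
  have hcard : {u | u ∈ Bx F m E ∧ ∃ v : F[X], Irreducible v ∧ ¬ v ∣ N ∧
      E (m - 1) < v.natDegree ∧ C v ∣ derivative (pl m N f0 u)}.ncard ≤
      A0.ncard + ∑ e ∈ Finset.Ioc (E (m - 1)) h,
        ∑ v ∈ (hMfin e).toFinset.filter (fun v => Irreducible v ∧ ¬ v ∣ N), (Av v).ncard := by
    refine (Set.ncard_le_ncard hcov ?_).trans ((Set.ncard_union_le _ _).trans ?_)
    · refine Set.Finite.union ?_ ?_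
      · rw [hA0]
        exact hBfin.subset fun u hu => hu.1
      · refine Set.Finite.biUnion (Finset.finite_toSet _) fun e _ => ?_
        exact Set.Finite.biUnion (Finset.finite_toSet _) fun v _ => hAvfin v
    · refine Nat.add_le_add_left ?_ _
      refine (Finset.set_ncard_biUnion_le _ _).trans ?_
      refine Finset.sum_le_sum fun e _ => ?_
      exact Finset.set_ncard_biUnion_le _ _
  have hsum : ∀ e ∈ Finset.Ioc (E (m - 1)) h,
      (∑ v ∈ (hMfin e).toFinset.filter (fun v => Irreducible v ∧ ¬ v ∣ N), (Av v).ncard) *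
        Nat.card F ^ E (m - 1) ≤ (Bx F m E).ncard := by
    intro e he
    rw [Finset.mem_Ioc] at he
    have h3 : (∑ v ∈ (hMfin e).toFinset.filter (fun v => Irreducible v ∧ ¬ v ∣ N),
        (Av v).ncard) * Nat.card F ^ E (m - 1) * Nat.card F ^ e ≤
        (Bx F m E).ncard * Nat.card F ^ e := by
      calc (∑ v ∈ (hMfin e).toFinset.filter (fun v => Irreducible v ∧ ¬ v ∣ N),
            (Av v).ncard) * Nat.card F ^ E (m - 1) * Nat.card F ^ e
          = ∑ v ∈ (hMfin e).toFinset.filter (fun v => Irreducible v ∧ ¬ v ∣ N),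
              (Av v).ncard * Nat.card F ^ E (m - 1) * Nat.card F ^ e := by
            rw [Finset.sum_mul, Finset.sum_mul]
        _ ≤ ∑ _v ∈ (hMfin e).toFinset.filter (fun v => Irreducible v ∧ ¬ v ∣ N),
              (Bx F m E).ncard := by
            refine Finset.sum_le_sum fun v hv => ?_
            rw [Finset.mem_filter, Set.Finite.mem_toFinset] at hv
            obtain ⟨⟨hv1, hv2⟩, hv3, hv4⟩ := hv
            have h4 := hvb v hv1 hv3 hv4 (by rw [hv2]; exact he.1) (by rw [hv2]; exact he.2)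
            rw [hv2] at h4
            exact h4
        _ = ((hMfin e).toFinset.filter (fun v => Irreducible v ∧ ¬ v ∣ N)).card *
              (Bx F m E).ncard := by
            rw [Finset.sum_const, smul_eq_mul]
        _ ≤ Nat.card F ^ e * (Bx F m E).ncard := by
            refine Nat.mul_le_mul_right _ ?_
            refine (Finset.card_filter_le _ _).trans (le_of_eq ?_)
            rw [← Set.ncard_eq_toFinset_card _ (hMfin e)]
            exact (mon_card (F := F) e).2
        _ = (Bx F m E).ncard * Nat.card F ^ e := mul_comm _ _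
    exact Nat.le_of_mul_le_mul_right h3 (pow_pos hq _)
  calc {u | u ∈ Bx F m E ∧ ∃ v : F[X], Irreducible v ∧ ¬ v ∣ N ∧
        E (m - 1) < v.natDegree ∧ C v ∣ derivative (pl m N f0 u)}.ncard *
          Nat.card F ^ E (m - 1)
      ≤ (A0.ncard + ∑ e ∈ Finset.Ioc (E (m - 1)) h,
        ∑ v ∈ (hMfin e).toFinset.filter (fun v => Irreducible v ∧ ¬ v ∣ N), (Av v).ncard) *
          Nat.card F ^ E (m - 1) := Nat.mul_le_mul_right _ hcard
    _ = A0.ncard * Nat.card F ^ E (m - 1) + ∑ e ∈ Finset.Ioc (E (m - 1)) h,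
        (∑ v ∈ (hMfin e).toFinset.filter (fun v => Irreducible v ∧ ¬ v ∣ N), (Av v).ncard) *
          Nat.card F ^ E (m - 1) := by
        rw [add_mul, Finset.sum_mul]
    _ ≤ (Bx F m E).ncard + ∑ _e ∈ Finset.Ioc (E (m - 1)) h, (Bx F m E).ncard :=
        Nat.add_le_add h0 (Finset.sum_le_sum hsum)
    _ = (N.natDegree + 1) * (Bx F m E).ncard := by
        rw [Finset.sum_const, Nat.card_Ioc, smul_eq_mul]
        have h3 : h - E (m - 1) = N.natDegree := by omega
        rw [h3]
        ring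

end H13.SM
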