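import Pool.Agent.H13.SM.Cng

/-!
# SM-SMD: `f_t = 0` is rare

`F` has characteristic `p ≥ 3` (`p ≠ 2` as `2 ≠ 0`). `dT f = 0` implies that the derivative of `f.coeff 0 = f0.coeff 0 + N u_0`
is zero (coefficient `0` of `dT f`). The polynomials `g` of degree `≤ m h` with `g' = 0` have only coefficients at the
multiples of `p`: at most `q ^ (m h / p + 1) ≤ q ^ (m h / 3 + 1)` of them; `w ↦ f0.coeff 0 + N w` is injective; `N w` has
degree `≤ m h` for `deg w < E 0`. `fib` with `i₀ = 0`, `K = q ^ (m h / 3 + 1)`.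
-/

set_option autoImplicit false

open Polynomial
open Pool.Agent.H94.GG (Fam dT)

noncomputable section

namespace H13.SM

variable {F : Type} [Field F]

private theorem dT_coeff (f : F[X][X]) (i : ℕ) : (dT f).coeff i = derivative (f.coeff i) := by
  unfold dT
  rw [Polynomial.sum_def, finsetSum_coeff]
  simp only [coeff_monomial]
  rw [Finset.sum_ite_eq' f.support i (fun j => derivative (f.coeff j))]
  split_ifs with h
  · rfl
  · rw [notMem_support_iff.1 h, derivative_zero]

private theorem pl_coeff (m : ℕ) (N : F[X]) (f0 : F[X][X]) (u : Fin m → F[X]) (i : Fin m) :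
    (pl m N f0 u).coeff i = f0.coeff i + N * u i := by
  unfold pl
  rw [coeff_add, finsetSum_coeff, Finset.sum_eq_single i]
  · rw [coeff_C_mul_X_pow, if_pos rfl]
  · intro j _ hj
    rw [coeff_C_mul_X_pow, if_neg]
    intro h
    exact hj (Fin.ext h.symm)
  · intro h
    exact absurd (Finset.mem_univ _) h

theorem smd [Finite F] (h2 : (2 : F) ≠ 0) (m h : ℕ) (hm : 3 ≤ m) (N : F[X]) (hN : N ≠ 0)
    (f0 : F[X][X]) (hf0 : Fam m h f0) (E : ℕ → ℕ) (hE : E 0 + N.natDegree ≤ m * h) :
    {u | u ∈ Bx F m E ∧ dT (pl m N f0 u) = 0}.ncard * Nat.card F ^ E 0 ≤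
      Nat.card F ^ (m * h / 3 + 1) * (Bx F m E).ncard := by
  obtain ⟨p, hp⟩ := CharP.exists F
  have hp0 : p ≠ 0 := CharP.char_ne_zero_of_finite F p
  have hpp : p.Prime := (CharP.char_is_prime_or_zero F p).resolve_right hp0
  have hp2 : p ≠ 2 := by
    rintro rfl
    apply h2
    exact_mod_cast CharP.cast_eq_zero F 2
  have hp3 : 3 ≤ p := by
    have := hpp.two_le
    omega
  have hm0 : 0 < m := by omega
  refine fib (⟨0, hm0⟩ : Fin m) _ (fun u hu => hu.1) _ fun u _ => ?_
  have hcard := dl_card (F := F) (m * h / 3 + 1)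
  rw [← hcard.2]
  have hder : ∀ w ∈ {w : F[X] | w.degree < ((E ((⟨0, hm0⟩ : Fin m) : ℕ) : ℕ) : WithBot ℕ) ∧
      Function.update u (⟨0, hm0⟩ : Fin m) w ∈
        {u | u ∈ Bx F m E ∧ dT (pl m N f0 u) = 0}},
      derivative (f0.coeff 0 + N * w) = 0 := by
    rintro w ⟨_, _, hw⟩
    have h3 := pl_coeff m N f0 (Function.update u (⟨0, hm0⟩ : Fin m) w) (⟨0, hm0⟩ : Fin m)
    rw [Function.update_self] at h3
    have h4 := dT_coeff (pl m N f0 (Function.update u (⟨0, hm0⟩ : Fin m) w)) 0
    rw [hw, coeff_zero] at h4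
    rw [h4]
    exact congrArg _ h3.symm
  have hexp : ∀ w ∈ {w : F[X] | w.degree < ((E ((⟨0, hm0⟩ : Fin m) : ℕ) : ℕ) : WithBot ℕ) ∧
      Function.update u (⟨0, hm0⟩ : Fin m) w ∈
        {u | u ∈ Bx F m E ∧ dT (pl m N f0 u) = 0}},
      expand F p (contract p (f0.coeff 0 + N * w)) = f0.coeff 0 + N * w :=
    fun w hw => expand_contract p (hder w hw) hp0
  refine Set.ncard_le_ncard_of_injOn (fun w => contract p (f0.coeff 0 + N * w)) ?_ ?_ hcard.1
  · intro w hw
    have h5 := hexp w hw
    have h6 : (f0.coeff 0 + N * w).natDegree ≤ m * h := by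
      refine (natDegree_add_le _ _).trans (max_le ?_ ?_)
      · have := hf0.coeff 0 hm0
        simpa using this
      · by_cases hw0 : w = 0
        · rw [hw0, mul_zero, natDegree_zero]
          exact Nat.zero_le _
        · have h7 : w.natDegree < E 0 := by
            have h8 : w.degree < ((E 0 : ℕ) : WithBot ℕ) := hw.1
            rw [degree_eq_natDegree hw0] at h8
            exact_mod_cast h8
          have h9 := natDegree_mul_le (p := N) (q := w)
          omega
    have h7 : (contract p (f0.coeff 0 + N * w)).natDegree * p = (f0.coeff 0 + N * w).natDegree := by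
      rw [← natDegree_expand, h5]
    have h8 : (contract p (f0.coeff 0 + N * w)).natDegree < m * h / 3 + 1 := by
      rw [Nat.lt_succ_iff, Nat.le_div_iff_mul_le (by norm_num)]
      calc _ ≤ (contract p (f0.coeff 0 + N * w)).natDegree * p := Nat.mul_le_mul_left _ hp3
        _ ≤ m * h := by rw [h7]; exact h6
    exact lt_of_le_of_lt degree_le_natDegree (by exact_mod_cast h8)
  · intro w hw w' hw' hww
    have h5 := hexp w hw
    have h6 := hexp w' hw'
    have h7 : contract p (f0.coeff 0 + N * w) = contract p (f0.coeff 0 + N * w') := hww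
    rw [h7, h6] at h5
    exact (mul_left_cancel₀ hN (add_left_cancel h5)).symm

end H13.SM
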