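import Pool.Agent.H13.SM.Cng

/-!
# SM-SME: `f_x` and `f_t` seldom have a common factor of positive degree in `x`

`T` = the vectors with the coordinate `1` equal to `N ^ (p - 1) r ^ p`, `deg r < σ`, and all others zero: `T ⊆ Bx` since
`(p - 1) d + p (σ - 1) < p σ + p d ≤ E 1`, and `T` has `q ^ σ` elements (`r ↦ N ^ (p - 1) r ^ p` is injective; `dl_card`).
`tr` with `K = m - 1`: let `u ∈ Bx`, `f = pl m N f0 u`. For `w ∈ T` `pl m N f0 (u + w) = f + C ((N r) ^ p) * X`, so
`dT` does not change (the derivative of a `p`-th power is zero) and the derivative is `derivative f + C ((N r) ^ p)`.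
Assume `dT f ≠ 0`. Up to units `dT f` has at most `natDegree (dT f) ≤ m - 1` irreducible factors `Z` of positive degree in
`x` (`UniqueFactorizationMonoid.normalizedFactors`, the degrees add up; `f` is monic of degree `m` and `dT` kills
`x ^ m`). For each `Z` there is at most one `r` with `Z ∣ derivative f + C ((N r) ^ p)`: for two, `Z` divides
`C ((N r) ^ p - (N r') ^ p)`, of degree zero in `x`, so this is zero, `N r = N r'` (Frobenius is injective), `r = r'`.
-/

set_option autoImplicit false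

open Polynomial
open Pool.Agent.H94.GG (Fam dT)

noncomputable section

namespace H13.SM

variable {F : Type} [Field F]

/-- `f_x` and `f_t` have a common factor of positive degree in `x` -/
def ComF (f : F[X][X]) : Prop :=
  ∃ Z : F[X][X], Irreducible Z ∧ 0 < Z.natDegree ∧ Z ∣ derivative f ∧ Z ∣ dT f

private theorem dT_coeff (g : F[X][X]) (i : ℕ) : (dT g).coeff i = derivative (g.coeff i) := by
  unfold Pool.Agent.H94.GG.dT
  rw [Polynomial.sum_def, finsetSum_coeff]
  simp only [coeff_monomial]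
  rw [Finset.sum_ite_eq' g.support i (fun b => derivative (g.coeff b))]
  split_ifs with h
  · rfl
  · rw [notMem_support_iff.1 h, derivative_zero]

private theorem pl_coeff (m : ℕ) (N : F[X]) (f0 : F[X][X]) (u : Fin m → F[X]) (j : ℕ)
    (hj : m ≤ j) : (pl m N f0 u).coeff j = f0.coeff j := by
  unfold pl
  rw [coeff_add, finsetSum_coeff, Finset.sum_eq_zero, add_zero]
  intro i _
  rw [coeff_C_mul, coeff_X_pow, if_neg (by have := i.2; omega), mul_zero]

private theorem pl_add (m : ℕ) (N : F[X]) (f0 : F[X][X]) (u : Fin m → F[X]) (i₁ : Fin m)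
    (w : F[X]) : pl m N f0 (u + Pi.single i₁ w) =
      pl m N f0 u + C (N * w) * X ^ (i₁ : ℕ) := by
  unfold pl
  rw [add_assoc]
  congr 1
  have h1 : ∀ i : Fin m, C (N * (u + Pi.single i₁ w : Fin m → F[X]) i) * X ^ (i : ℕ) =
      C (N * u i) * X ^ (i : ℕ) + C (N * (Pi.single i₁ w : Fin m → F[X]) i) * X ^ (i : ℕ) := by
    intro i
    rw [Pi.add_apply, mul_add, C_add, add_mul]
  rw [Finset.sum_congr rfl fun i _ => h1 i, Finset.sum_add_distrib]
  congr 1
  rw [Finset.sum_eq_single i₁]
  · rw [Pi.single_eq_same]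
  · intro i _ hi
    rw [Pi.single_eq_of_ne hi, mul_zero, C_0, zero_mul]
  · intro h
    exact absurd (Finset.mem_univ _) h

private theorem card_pos_le (s : Multiset F[X][X]) :
    (s.filter fun Z => 0 < Z.natDegree).card ≤ (s.map natDegree).sum := by
  induction s using Multiset.induction with
  | empty => simp
  | cons a s ih =>
    rw [Multiset.map_cons, Multiset.sum_cons]
    by_cases h : 0 < a.natDegree
    · rw [Multiset.filter_cons_of_pos (p := fun Z : F[X][X] => 0 < Z.natDegree) _ h,
        Multiset.card_cons]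
      omega
    · rw [Multiset.filter_cons_of_neg (p := fun Z : F[X][X] => 0 < Z.natDegree) _ h]
      omega

open Classical in
private theorem few_factors (g : F[X][X]) (hg : g ≠ 0) : ∃ S : Finset F[X][X],
    S.card ≤ g.natDegree ∧ (∀ Z ∈ S, 0 < Z.natDegree) ∧
      ∀ Z : F[X][X], Irreducible Z → 0 < Z.natDegree → Z ∣ g → ∃ Z' ∈ S, Associated Z Z' := by
  refine ⟨((UniqueFactorizationMonoid.factors g).filter fun Z => 0 < Z.natDegree).toFinset,
    ?_, ?_, ?_⟩
  · refine (Multiset.toFinset_card_le _).trans ((card_pos_le _).trans (le_of_eq ?_))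
    rw [← natDegree_multiset_prod]
    · exact natDegree_eq_of_degree_eq
        (degree_eq_degree_of_associated (UniqueFactorizationMonoid.factors_prod hg))
    · intro h0
      exact (UniqueFactorizationMonoid.irreducible_of_factor _ h0).ne_zero rfl
  · intro Z hZ
    exact (Multiset.mem_filter.1 (Multiset.mem_toFinset.1 hZ)).2
  · intro Z hZ hZ0 hdvd
    obtain ⟨Z', hZ', hass⟩ := UniqueFactorizationMonoid.exists_mem_factors_of_dvd hg hZ hdvd
    refine ⟨Z', Multiset.mem_toFinset.2 (Multiset.mem_filter.2 ⟨hZ', ?_⟩), hass⟩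
    rw [← natDegree_eq_of_degree_eq (degree_eq_degree_of_associated hass)]
    exact hZ0

theorem sme [Finite F] (p : ℕ) [Fact p.Prime] [CharP F p] (m h : ℕ) (hm : 3 ≤ m) (N : F[X])
    (hN : N ≠ 0) (f0 : F[X][X]) (hf0 : Fam m h f0) (E : ℕ → ℕ) (σ : ℕ)
    (hσ : p * σ + p * N.natDegree ≤ E 1) :
    {u | u ∈ Bx F m E ∧ dT (pl m N f0 u) ≠ 0 ∧ ComF (pl m N f0 u)}.ncard * Nat.card F ^ σ ≤
      (m - 1) * (Bx F m E).ncard := by
  classical
  have hp : p.Prime := Fact.out
  have hp1 : p - 1 + 1 = p := Nat.sub_add_cancel hp.one_lt.le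
  let i₁ : Fin m := ⟨1, by omega⟩
  let φ : F[X] → (Fin m → F[X]) := fun r => Pi.single i₁ (N ^ (p - 1) * r ^ p)
  have hφ1 : ∀ r, N * (N ^ (p - 1) * r ^ p) = (N * r) ^ p := by
    intro r
    rw [← mul_assoc, ← pow_succ', hp1, mul_pow]
  have hφinj : Function.Injective φ := by
    intro r r' hrr
    have h1 := congrFun hrr i₁
    have h2 : N ^ (p - 1) * r ^ p = N ^ (p - 1) * r' ^ p := by
      have e1 : φ r i₁ = N ^ (p - 1) * r ^ p := Pi.single_eq_same _ _
      have e2 : φ r' i₁ = N ^ (p - 1) * r' ^ p := Pi.single_eq_same _ _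
      rw [← e1, ← e2, h1]
    have h3 : r ^ p = r' ^ p := mul_left_cancel₀ (pow_ne_zero _ hN) h2
    exact frobenius_inj F[X] p h3
  have hTcard : (φ '' {r : F[X] | r.degree < ((σ : ℕ) : WithBot ℕ)}).ncard = Nat.card F ^ σ := by
    rw [Set.ncard_image_of_injective _ hφinj, (dl_card σ).2]
  rw [← hTcard]
  refine tr (φ '' {r : F[X] | r.degree < ((σ : ℕ) : WithBot ℕ)}) ?_ _ (fun u hu => hu.1)
    (m - 1) ?_
  · rintro _ ⟨r, hr, rfl⟩ i
    by_cases hi : i = i₁
    · subst hi
      have e1 : φ r i₁ = N ^ (p - 1) * r ^ p := Pi.single_eq_same _ _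
      rw [e1]
      by_cases hr0 : r = 0
      · rw [hr0, zero_pow hp.ne_zero, mul_zero, degree_zero]
        exact WithBot.bot_lt_coe _
      · have h1 : r.natDegree < σ := (natDegree_lt_iff_degree_lt hr0).2 hr
        refine (natDegree_lt_iff_degree_lt (mul_ne_zero (pow_ne_zero _ hN)
          (pow_ne_zero _ hr0))).1 ?_
        rw [natDegree_mul (pow_ne_zero _ hN) (pow_ne_zero _ hr0), natDegree_pow, natDegree_pow]
        have h2 : (p - 1) * N.natDegree ≤ p * N.natDegree :=
          Nat.mul_le_mul_right _ (Nat.sub_le _ _)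
        have h3 : p * r.natDegree < p * σ := Nat.mul_lt_mul_of_pos_left h1 hp.pos
        have h4 : E (i₁ : ℕ) = E 1 := rfl
        rw [h4]
        omega
    · have e1 : φ r i = 0 := Pi.single_eq_of_ne hi _
      rw [e1, degree_zero]
      exact WithBot.bot_lt_coe _
  · intro u hu
    set f := pl m N f0 u with hf
    -- the translates
    have htr : ∀ r, pl m N f0 (u + φ r) = f + C ((N * r) ^ p) * X := by
      intro r
      rw [pl_add, hφ1, hf]
      have e1 : (i₁ : ℕ) = 1 := rfl
      rw [e1, pow_one]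
    have hdT : ∀ r, dT (f + C ((N * r) ^ p) * X) = dT f := by
      intro r
      ext1 i
      rw [dT_coeff, dT_coeff, coeff_add, derivative_add, coeff_C_mul, coeff_X]
      have h1 : derivative ((N * r) ^ p) = 0 := by
        rw [derivative_pow, CharP.cast_eq_zero, C_0, zero_mul, zero_mul]
      split_ifs
      · rw [mul_one, h1, add_zero]
      · rw [mul_zero, derivative_zero, add_zero]
    have hder : ∀ r, derivative (f + C ((N * r) ^ p) * X) = derivative f + C ((N * r) ^ p) := by
      intro r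
      rw [derivative_add, derivative_C_mul, derivative_X, mul_one]
    by_cases hz : dT f = 0
    · have h1 : {w | w ∈ φ '' {r : F[X] | r.degree < ((σ : ℕ) : WithBot ℕ)} ∧
          u + w ∈ {u | u ∈ Bx F m E ∧ dT (pl m N f0 u) ≠ 0 ∧ ComF (pl m N f0 u)}} = ∅ := by
        rw [Set.eq_empty_iff_forall_notMem]
        rintro _ ⟨⟨r, hr, rfl⟩, -, h2, -⟩
        rw [htr, hdT] at h2
        exact h2 hz
      rw [h1, Set.ncard_empty]
      exact Nat.zero_le _
    · obtain ⟨S, hS1, hS2, hS3⟩ := few_factors (dT f) hz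
      have hdeg : (dT f).natDegree ≤ m - 1 := by
        rw [natDegree_le_iff_coeff_eq_zero]
        intro j hj
        rw [dT_coeff, hf, pl_coeff _ _ _ _ _ (by omega)]
        rcases Nat.lt_or_ge m j with h1 | h1
        · rw [coeff_eq_zero_of_natDegree_lt (by rw [hf0.deg]; exact h1), derivative_zero]
        · have h2 : j = f0.natDegree := by rw [hf0.deg]; omega
          have h3 : f0.coeff f0.natDegree = 1 := hf0.monic
          rw [h2, h3, derivative_one]
      let ψ : (Fin m → F[X]) → F[X][X] := fun w =>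
        if hw : ∃ Z ∈ S, Z ∣ derivative f + C (N * w i₁) then hw.choose else 0
      have hψ : ∀ w, (∃ Z ∈ S, Z ∣ derivative f + C (N * w i₁)) →
          ψ w ∈ S ∧ ψ w ∣ derivative f + C (N * w i₁) := by
        intro w hw
        have e1 : ψ w = hw.choose := dif_pos hw
        rw [e1]
        exact hw.choose_spec
      have hex : ∀ w ∈ {w | w ∈ φ '' {r : F[X] | r.degree < ((σ : ℕ) : WithBot ℕ)} ∧
          u + w ∈ {u | u ∈ Bx F m E ∧ dT (pl m N f0 u) ≠ 0 ∧ ComF (pl m N f0 u)}},
          ∃ Z ∈ S, Z ∣ derivative f + C (N * w i₁) := by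
        rintro _ ⟨⟨r, hr, rfl⟩, -, h2, Z, hZ, hZ0, h3, h4⟩
        rw [htr, hdT] at h4
        rw [htr, hder] at h3
        obtain ⟨Z', hZ', hass⟩ := hS3 Z hZ hZ0 h4
        refine ⟨Z', hZ', ?_⟩
        have e1 : φ r i₁ = N ^ (p - 1) * r ^ p := Pi.single_eq_same _ _
        rw [e1, hφ1]
        exact hass.dvd_iff_dvd_left.1 h3
      refine le_trans (Set.ncard_le_ncard_of_injOn (t := (S : Set F[X][X])) ψ
        (fun w hw => (hψ w (hex w hw)).1) ?_ S.finite_toSet) ?_
      · intro w hw w' hw' hww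
        obtain ⟨h1, h2⟩ := hψ w (hex w hw)
        obtain ⟨h3, h4⟩ := hψ w' (hex w' hw')
        rw [← hww] at h4
        have h5 : ψ w ∣ C (N * w i₁ - N * w' i₁) := by
          have := dvd_sub h2 h4
          rwa [add_sub_add_left_eq_sub, ← C_sub] at this
        have h6 : N * w i₁ - N * w' i₁ = 0 := by
          by_contra h7
          have h8 := natDegree_le_of_dvd h5 (C_ne_zero.2 h7)
          rw [natDegree_C] at h8
          have := hS2 _ h1
          omega
        have h7 : w i₁ = w' i₁ := mul_left_cancel₀ hN (sub_eq_zero.1 h6)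
        obtain ⟨⟨r, hr, rfl⟩, -⟩ := hw
        obtain ⟨⟨r', hr', rfl⟩, -⟩ := hw'
        have e1 : φ r i₁ = N ^ (p - 1) * r ^ p := Pi.single_eq_same _ _
        have e2 : φ r' i₁ = N ^ (p - 1) * r' ^ p := Pi.single_eq_same _ _
        rw [e1, e2] at h7
        show (Pi.single i₁ (N ^ (p - 1) * r ^ p) : Fin m → F[X]) = Pi.single i₁ _
        rw [h7]
      · rw [Set.ncard_coe_finset]
        exact hS1.trans hdeg

end H13.SM
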