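import Mathlib

/-!
# SM-SMF: elimination

Over `k = RatFunc F` (or `FractionRing F[X]`) the images of `g1`, `g2` in `k[X]` are coprime: a common irreducible factor of
positive degree would give, by Gauss (`Polynomial.IsPrimitive`, primitive part; `IsPrimitive.dvd_iff_fraction_map_dvd..`), a
common irreducible factor `Z` of positive degree in `x` of `g1`, `g2` in `F[X][X]`, against `hno`. (If `g1 = 0`: then `g2` has no
irreducible factor of positive degree, so it has degree zero, `R = g2.coeff 0`. If both have degree zero in `x` then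
`R = g2.coeff 0` again.) Otherwise the resultant `R` of `g1`, `g2` with their exact degrees `n1`, `n2 ≤ n`
(`Polynomial.resultant`, Sylvester matrix of size `n1 + n2 ≤ 2 n` with entries of degree `≤ D`) is not zero, of degree at most
`(n1 + n2) D`, and `C R = U g1 + V g2` (Mathlib: `Polynomial.exists_mul_add_mul_eq_C_resultant` or the adjugate of the
Sylvester matrix). Alternative without resultants: the linear map `(U, V) ↦ U g1 + V g2` for `deg U < n2`, `deg V < n1` over
`k` is bijective onto the polynomials of degree `< n1 + n2`; Cramer's rule for the preimage of `1`.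
-/

set_option autoImplicit false

open Polynomial

noncomputable section

namespace H13.SM

variable {F : Type} [Field F]

private theorem syl_deg (f g : F[X][X]) (d m n : ℕ)
    (hf : ∀ j, (f.coeff j).natDegree ≤ d) (hg : ∀ j, (g.coeff j).natDegree ≤ d)
    (i j : Fin (m + n)) : (sylvester f g m n i j).natDegree ≤ d := by
  unfold sylvester
  rw [Matrix.of_apply]
  induction j using Fin.addCases with
  | left j =>
    rw [Fin.addCases_left]
    split_ifs
    · exact hg _
    · rw [natDegree_zero]; exact Nat.zero_le _
  | right j =>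
    rw [Fin.addCases_right]
    split_ifs
    · exact hf _
    · rw [natDegree_zero]; exact Nat.zero_le _

private theorem res_deg (f g : F[X][X]) (d : ℕ)
    (hf : ∀ j, (f.coeff j).natDegree ≤ d) (hg : ∀ j, (g.coeff j).natDegree ≤ d) :
    (resultant f g).natDegree ≤ (f.natDegree + g.natDegree) * d := by
  unfold resultant
  rw [Matrix.det_apply']
  refine natDegree_sum_le_of_forall_le _ _ fun σ _ => ?_
  refine natDegree_mul_le.trans ?_
  rw [natDegree_intCast, zero_add]
  refine (natDegree_prod_le _ _).trans ?_
  refine (Finset.sum_le_card_nsmul _ _ d fun i _ => syl_deg f g d _ _ hf hg _ _).trans ?_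
  rw [Finset.card_univ, Fintype.card_fin, smul_eq_mul]

private theorem dvd_of_map_dvd (f g : F[X][X]) (hf : f.IsPrimitive)
    (h : f.map (algebraMap F[X] (FractionRing F[X])) ∣ g.map (algebraMap F[X] (FractionRing F[X]))) :
    f ∣ g := by
  classical
  let _ : NormalizedGCDMonoid (Polynomial F) := Nonempty.some inferInstance
  by_cases hg : g = 0
  · rw [hg]
    exact dvd_zero _
  have h1 := g.eq_C_content_mul_primPart
  have hc : g.content ≠ 0 := by
    rw [Ne, content_eq_zero_iff]
    exact hg
  have hc' : (algebraMap (Polynomial F) (FractionRing F[X])) g.content ≠ 0 := by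
    intro h0
    exact hc (IsFractionRing.injective (Polynomial F) (FractionRing F[X]) (by rw [h0, map_zero]))
  have hu : IsUnit (C ((algebraMap (Polynomial F) (FractionRing F[X])) g.content) :
      Polynomial (FractionRing F[X])) :=
    isUnit_C.2 (isUnit_iff_ne_zero.2 hc')
  have h2 : g.map (algebraMap F[X] (FractionRing F[X])) =
      C ((algebraMap (Polynomial F) (FractionRing F[X])) g.content) *
        g.primPart.map (algebraMap F[X] (FractionRing F[X])) := by
    conv_lhs => rw [h1]
    rw [Polynomial.map_mul, map_C]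
  have h3 : f.map (algebraMap F[X] (FractionRing F[X])) ∣
      g.primPart.map (algebraMap F[X] (FractionRing F[X])) := by
    rw [h2] at h
    exact (hu.dvd_mul_left).1 h
  have h4 : f ∣ g.primPart :=
    (IsPrimitive.dvd_iff_fraction_map_dvd_fraction_map (FractionRing F[X]) hf).2 h3
  rw [h1]
  exact h4.mul_left _

private theorem exists_prim (p : Polynomial (FractionRing F[X])) (hp : p ≠ 0) :
    ∃ (f : F[X][X]) (c : FractionRing F[X]), f.IsPrimitive ∧ c ≠ 0 ∧
      p = C c * f.map (algebraMap F[X] (FractionRing F[X])) := by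
  classical
  let _ : NormalizedGCDMonoid (Polynomial F) := Nonempty.some inferInstance
  obtain ⟨b, hb, hmap⟩ := IsLocalization.integerNormalization_spec
    (nonZeroDivisors (Polynomial F)) p
  set q := IsLocalization.integerNormalization (nonZeroDivisors (Polynomial F)) p with hq
  have hinj := IsFractionRing.injective (Polynomial F) (FractionRing F[X])
  have hb0 : b ≠ 0 := nonZeroDivisors.ne_zero hb
  have hb' : (algebraMap (Polynomial F) (FractionRing F[X])) b ≠ 0 := by
    intro h0
    exact hb0 (hinj (by rw [h0, map_zero]))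
  have hbp : b • p = C ((algebraMap (Polynomial F) (FractionRing F[X])) b) * p := by
    rw [← smul_eq_C_mul, algebraMap_smul]
  have hq0 : q ≠ 0 := by
    intro h0
    rw [h0, Polynomial.map_zero, hbp] at hmap
    rcases mul_eq_zero.1 hmap.symm with h | h
    · exact hb' (C_eq_zero.1 h)
    · exact hp h
  have hc : q.content ≠ 0 := by
    rw [Ne, content_eq_zero_iff]
    exact hq0
  have hc' : (algebraMap (Polynomial F) (FractionRing F[X])) q.content ≠ 0 := by
    intro h0
    exact hc (hinj (by rw [h0, map_zero]))
  have h1 := q.eq_C_content_mul_primPart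
  have h2 : q.map (algebraMap (Polynomial F) (FractionRing F[X])) =
      C ((algebraMap (Polynomial F) (FractionRing F[X])) q.content) *
        q.primPart.map (algebraMap F[X] (FractionRing F[X])) := by
    conv_lhs => rw [h1]
    rw [Polynomial.map_mul, map_C]
  refine ⟨q.primPart, ((algebraMap (Polynomial F) (FractionRing F[X])) b)⁻¹ *
    (algebraMap (Polynomial F) (FractionRing F[X])) q.content, q.isPrimitive_primPart,
    mul_ne_zero (inv_ne_zero hb') hc', ?_⟩
  rw [C_mul, mul_assoc, ← h2, hmap, hbp, ← mul_assoc, ← C_mul, inv_mul_cancel₀ hb', C_1, one_mul]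

private theorem cop (g1 g2 : F[X][X]) (hg : g2 ≠ 0)
    (hno : ∀ Z : F[X][X], Irreducible Z → 0 < Z.natDegree → Z ∣ g1 → ¬ Z ∣ g2) :
    IsCoprime (g1.map (algebraMap F[X] (FractionRing F[X])))
      (g2.map (algebraMap F[X] (FractionRing F[X]))) := by
  have hinj : Function.Injective (algebraMap F[X] (FractionRing F[X])) :=
    IsFractionRing.injective _ _
  apply isCoprime_of_irreducible_dvd
  · rintro ⟨-, h⟩
    rw [Polynomial.map_eq_zero_iff hinj] at h
    exact hg h
  · intro z hz h1 h2
    obtain ⟨f, c, hf, hc, hzf⟩ := exists_prim z hz.ne_zero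
    have hu : IsUnit (C c : Polynomial (FractionRing F[X])) :=
      isUnit_C.2 (isUnit_iff_ne_zero.2 hc)
    have hirr : Irreducible (f.map (algebraMap F[X] (FractionRing F[X]))) := by
      rw [hzf, irreducible_isUnit_mul hu] at hz
      exact hz
    have hfirr : Irreducible f := hf.irreducible_iff_irreducible_map_fraction_map.2 hirr
    have hdeg : 0 < f.natDegree := by
      have := hirr.natDegree_pos
      rwa [natDegree_map_eq_of_injective hinj] at this
    have d1 : f ∣ g1 := by
      apply dvd_of_map_dvd f g1 hf
      rw [hzf, hu.mul_left_dvd] at h1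
      exact h1
    have d2 : f ∣ g2 := by
      apply dvd_of_map_dvd f g2 hf
      rw [hzf, hu.mul_left_dvd] at h2
      exact h2
    exact hno f hfirr hdeg d1 d2

theorem elim (g1 g2 : F[X][X]) (n D : ℕ) (h1 : g1.natDegree ≤ n) (h2 : g2.natDegree ≤ n)
    (c1 : ∀ i, (g1.coeff i).natDegree ≤ D) (c2 : ∀ i, (g2.coeff i).natDegree ≤ D) (hg : g2 ≠ 0)
    (hno : ∀ Z : F[X][X], Irreducible Z → 0 < Z.natDegree → Z ∣ g1 → ¬ Z ∣ g2) :
    ∃ (R : F[X]) (U V : F[X][X]), R ≠ 0 ∧ R.natDegree ≤ (2 * n + 1) * D ∧
      C R = U * g1 + V * g2 := by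
  have hinj : Function.Injective (algebraMap F[X] (FractionRing F[X])) :=
    IsFractionRing.injective _ _
  by_cases hd : g1.natDegree ≠ 0 ∨ g2.natDegree ≠ 0
  · obtain ⟨p, q, -, -, hpq⟩ := exists_mul_add_mul_eq_C_resultant g1 g2 (le_refl _) (le_refl _) hd
    refine ⟨resultant g1 g2, p, q, ?_, ?_, ?_⟩
    · intro h0
      have hc := resultant_ne_zero _ _ (cop g1 g2 hg hno)
      apply hc
      have h2 := resultant_map_map g1 g2 g1.natDegree g2.natDegree
        (algebraMap F[X] (FractionRing F[X]))
      have h3 : resultant g1 g2 g1.natDegree g2.natDegree = 0 := h0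
      rw [h3, map_zero] at h2
      have e1 := natDegree_map_eq_of_injective hinj g1
      have e2 := natDegree_map_eq_of_injective hinj g2
      rw [e1, e2]
      exact h2
    · refine (res_deg g1 g2 D c1 c2).trans (Nat.mul_le_mul_right _ ?_)
      omega
    · rw [← hpq]
      ring
  · push Not at hd
    have e2 : g2 = C (g2.coeff 0) := eq_C_of_natDegree_eq_zero hd.2
    refine ⟨g2.coeff 0, 0, 1, ?_, ?_, ?_⟩
    · intro h0
      apply hg
      rw [e2, h0, C_0]
    · refine (c2 0).trans ?_
      exact Nat.le_mul_of_pos_left _ (by omega)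
    · rw [zero_mul, one_mul, zero_add, ← e2]

end H13.SM
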