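import Pool.Agent.H13.SM.Sme
import Pool.Agent.H13.SM.Smf
import Pool.Agent.H13.SM.Cj

/-!
# SM-SMG: singular points over places of large degree

`T` = the vectors with the coordinate `0` equal to `N ^ (p - 1) r ^ p`, `deg r < σ`, all others zero; `T ⊆ Bx`, `q ^ σ` elements
(as in SME). `tr` with `K = 8 m ^ 2`: let `u ∈ Bx`, `f = pl m N f0 u`; for `w ∈ T` the polynomial is
`f_r = f + C ((N r) ^ p)`, with the same `f_x`, `f_t`. Assume `f_t ≠ 0` and `¬ ComF f` (otherwise no `w` counts). `elim` with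
`g1 = f_x`, `g2 = f_t`, `n = m - 1`, `D = m h` (all coefficients of `f` have degree `≤ m h`: `Fam`, and
`E i + deg N ≤ m h`): `R ≠ 0`, `deg R ≤ (2 m - 1) m h`, and `R(t) = 0` for each singular point `(t, x)`. Let `v` be irreducible
with `v(t) = 0`, monic after scaling: `v ∣ R`. The number `κ` of monic irreducible `v ∣ R` with `2 deg v > E 0` satisfies
`κ (E 0) ≤ 2 deg R` (their product divides `R`), so `κ E 0 ≤ 2 (2 m - 1) m h ≤ 4 (2 m - 1) E 0`, `κ ≤ 8 m`. For each such `v` fix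
a root `t₀`; by `cj` the singular point can be taken over `t₀`; at most `m - 1` values of `x` (`not_zero`); for fixed `x`
`(N(t₀) r(t₀)) ^ p = - f(t₀, x)` determines `N(t₀) r(t₀)`, and `N(t₀) ≠ 0` (`v ∤ N`), so `r(t₀)` and `r` modulo `v`, and
`deg r < σ ≤ deg v` (`2 σ ≤ E 0 < 2 deg v`), so at most one `r`. Total: `8 m (m - 1) ≤ 8 m ^ 2`.
-/

set_option autoImplicit false

open Polynomial
open Pool.Agent.H94.GG (Fam dT)

noncomputable section

namespace H13.SM

variable {F : Type} [Field F]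

private theorem dT_coeff (f : F[X][X]) (i : ℕ) : (dT f).coeff i = derivative (f.coeff i) := by
  unfold dT
  rw [Polynomial.sum_def, finsetSum_coeff]
  simp only [coeff_monomial]
  rw [Finset.sum_ite_eq' f.support i (fun j => derivative (f.coeff j))]
  split_ifs with h
  · rfl
  · rw [notMem_support_iff.1 h, derivative_zero]

private theorem pl_coeff (m : ℕ) (N : F[X]) (f0 : F[X][X]) (u : Fin m → F[X]) (i : Fin m) :
    (pl m N f0 u).coeff i = f0.coeff i + N * u i := by
  unfold pl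
  rw [coeff_add, finsetSum_coeff, Finset.sum_eq_single i]
  · rw [coeff_C_mul_X_pow, if_pos rfl]
  · intro j _ hj
    rw [coeff_C_mul_X_pow, if_neg]
    intro h
    exact hj (Fin.ext h.symm)
  · intro h
    exact absurd (Finset.mem_univ _) h

private theorem pl_coeff_ge (m : ℕ) (N : F[X]) (f0 : F[X][X]) (u : Fin m → F[X]) (i : ℕ)
    (hi : m ≤ i) : (pl m N f0 u).coeff i = f0.coeff i := by
  unfold pl
  rw [coeff_add, finsetSum_coeff, Finset.sum_eq_zero, add_zero]
  intro j _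
  rw [coeff_C_mul_X_pow, if_neg]
  have := j.2
  omega

/-- the shift -/
private def shf (p m : ℕ) (N r : F[X]) : Fin m → F[X] :=
  fun i => if (i : ℕ) = 0 then N ^ (p - 1) * r ^ p else 0

private theorem pl_sh (p : ℕ) (hp : 1 ≤ p) (m : ℕ) (hm : 0 < m) (N r : F[X]) (f0 : F[X][X])
    (u : Fin m → F[X]) : pl m N f0 (u + shf p m N r) = pl m N f0 u + C ((N * r) ^ p) := by
  have h1 : ∑ i : Fin m, C (N * shf p m N r i) * (X : F[X][X]) ^ (i : ℕ) = C ((N * r) ^ p) := by
    rw [Finset.sum_eq_single (⟨0, hm⟩ : Fin m)]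
    · obtain ⟨k, rfl⟩ : ∃ k, p = k + 1 := ⟨p - 1, by omega⟩
      unfold shf
      rw [if_pos rfl, pow_zero, mul_one, Nat.add_sub_cancel]
      congr 1
      rw [mul_pow, pow_succ N k]
      ring
    · intro j _ hj
      unfold shf
      rw [if_neg, mul_zero, C_0, zero_mul]
      intro h
      exact hj (Fin.ext h)
    · intro h
      exact absurd (Finset.mem_univ _) h
  unfold pl
  rw [← h1, add_assoc, ← Finset.sum_add_distrib]
  congr 1
  refine Finset.sum_congr rfl fun i _ => ?_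
  rw [Pi.add_apply, mul_add, C_add, add_mul]

private theorem shf_mem (p : ℕ) (hp : 1 ≤ p) (m : ℕ) (N r : F[X]) (hN : N ≠ 0) (E : ℕ → ℕ) (σ : ℕ)
    (hσ : p * σ + p * N.natDegree ≤ E 0) (hr : r.degree < ((σ : ℕ) : WithBot ℕ)) :
    shf p m N r ∈ Bx F m E := by
  intro i
  unfold shf
  split_ifs with h
  · by_cases hr0 : r = 0
    · rw [hr0, zero_pow (by omega), mul_zero, degree_zero]
      exact WithBot.bot_lt_coe _
    · rw [degree_eq_natDegree hr0] at hr
      have hr' : r.natDegree < σ := by exact_mod_cast hr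
      have h0 : N ^ (p - 1) * r ^ p ≠ 0 := mul_ne_zero (pow_ne_zero _ hN) (pow_ne_zero _ hr0)
      rw [degree_eq_natDegree h0, h]
      have h1 : (N ^ (p - 1) * r ^ p).natDegree = (p - 1) * N.natDegree + p * r.natDegree := by
        rw [natDegree_mul (pow_ne_zero _ hN) (pow_ne_zero _ hr0), natDegree_pow, natDegree_pow]
      have h2 : (p - 1) * N.natDegree ≤ p * N.natDegree := Nat.mul_le_mul_right _ (by omega)
      have h3 : p * r.natDegree < p * σ := Nat.mul_lt_mul_of_pos_left hr' (by omega)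
      have h4 : (N ^ (p - 1) * r ^ p).natDegree < E 0 := by omega
      exact_mod_cast h4
  · rw [degree_zero]
    exact WithBot.bot_lt_coe _

private theorem pow_p_inj (K : Type*) [CommRing K] [IsDomain K] (p : ℕ) [Fact p.Prime] [CharP K p]
    {a b : K} (h : a ^ p = b ^ p) : a = b :=
  frobenius_inj K p h

private theorem shf_inj (p : ℕ) [Fact p.Prime] [CharP F p] (m : ℕ) (hm : 0 < m) (N : F[X])
    (hN : N ≠ 0) : Function.Injective (shf p m N) := by
  intro r r' h
  have h1 := congrFun h (⟨0, hm⟩ : Fin m)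
  unfold shf at h1
  rw [if_pos rfl, if_pos rfl] at h1
  exact pow_p_inj F[X] p (mul_left_cancel₀ (pow_ne_zero _ hN) h1)

private theorem der_pow (p : ℕ) [CharP F p] (c : F[X]) : derivative (c ^ p) = 0 := by
  rw [derivative_pow, CharP.cast_eq_zero F p, C_0, zero_mul, zero_mul]

private theorem dT_add (p : ℕ) [CharP F p] (f : F[X][X]) (c : F[X]) :
    dT (f + C (c ^ p)) = dT f := by
  ext1 i
  rw [dT_coeff, dT_coeff, coeff_add, derivative_add, coeff_C]
  split_ifs
  · rw [der_pow, add_zero]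
  · rw [derivative_zero, add_zero]

private theorem der_add (f : F[X][X]) (c : F[X]) : derivative (f + C c) = derivative f := by
  rw [derivative_add, derivative_C, add_zero]

private theorem val_zero' (t x : AlgebraicClosure F) (g : F[X][X]) (h : val g t x = 0) (U : F[X][X]) :
    val (U * g) t x = 0 := by
  rw [val_mul, h, mul_zero]

private theorem cd (m h : ℕ) (N : F[X]) (f0 : F[X][X]) (hf0 : Fam m h f0) (E : ℕ → ℕ)
    (hEi : ∀ i < m, E i + N.natDegree ≤ m * h) (u : Fin m → F[X]) (hu : u ∈ Bx F m E) (i : ℕ) :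
    ((pl m N f0 u).coeff i).natDegree ≤ m * h := by
  rcases lt_or_ge i m with hi | hi
  · have h1 := pl_coeff m N f0 u ⟨i, hi⟩
    have h2 : (pl m N f0 u).coeff i = f0.coeff i + N * u ⟨i, hi⟩ := h1
    rw [h2]
    refine (natDegree_add_le _ _).trans (max_le ?_ ?_)
    · exact (hf0.coeff i hi).trans (Nat.mul_le_mul_right _ (Nat.sub_le _ _))
    · by_cases hw0 : u ⟨i, hi⟩ = 0
      · rw [hw0, mul_zero, natDegree_zero]
        exact Nat.zero_le _
      · have h7 : (u ⟨i, hi⟩).natDegree < E i := by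
          have h8 := hu ⟨i, hi⟩
          rw [degree_eq_natDegree hw0] at h8
          exact_mod_cast h8
        have h9 := natDegree_mul_le (p := N) (q := u ⟨i, hi⟩)
        have h10 := hEi i hi
        omega
  · rw [pl_coeff_ge m N f0 u i hi]
    rcases eq_or_lt_of_le hi with h1 | h1
    · rw [← h1]
      have h2 := hf0.monic.coeff_natDegree
      rw [hf0.deg] at h2
      rw [h2, natDegree_one]
      exact Nat.zero_le _
    · rw [coeff_eq_zero_of_natDegree_lt (by rw [hf0.deg]; exact h1), natDegree_zero]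
      exact Nat.zero_le _

private theorem nd1 (m h : ℕ) (N : F[X]) (f0 : F[X][X]) (hf0 : Fam m h f0) (u : Fin m → F[X]) :
    (derivative (pl m N f0 u)).natDegree ≤ m - 1 := by
  refine (natDegree_derivative_le _).trans (Nat.sub_le_sub_right ?_ 1)
  rw [natDegree_le_iff_coeff_eq_zero]
  intro i hi
  rw [pl_coeff_ge m N f0 u i hi.le]
  exact coeff_eq_zero_of_natDegree_lt (by rw [hf0.deg]; exact hi)

private theorem nd2 (m h : ℕ) (hm : 0 < m) (N : F[X]) (f0 : F[X][X]) (hf0 : Fam m h f0)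
    (u : Fin m → F[X]) : (dT (pl m N f0 u)).natDegree ≤ m - 1 := by
  rw [natDegree_le_iff_coeff_eq_zero]
  intro i hi
  have him : m ≤ i := by omega
  rw [dT_coeff, pl_coeff_ge m N f0 u i him]
  rcases eq_or_lt_of_le him with h1 | h1
  · rw [← h1]
    have h2 := hf0.monic.coeff_natDegree
    rw [hf0.deg] at h2
    rw [h2, derivative_one]
  · rw [coeff_eq_zero_of_natDegree_lt (by rw [hf0.deg]; exact h1), derivative_zero]

private theorem key [Finite F] (p : ℕ) [Fact p.Prime] [CharP F p] (m h : ℕ) (hm : 3 ≤ m) (N : F[X])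
    (f0 : F[X][X]) (hf0 : Fam m h f0) (E : ℕ → ℕ) (σ : ℕ) (hσ2 : 2 * σ ≤ E 0) (hE0 : 0 < E 0)
    (hE : m * h ≤ 2 * E 0) (hEi : ∀ i < m, E i + N.natDegree ≤ m * h)
    (u : Fin m → F[X]) (hu : u ∈ Bx F m E) (hd : dT (pl m N f0 u) ≠ 0)
    (hc : ¬ ComF (pl m N f0 u)) :
    {r : F[X] | r.degree < ((σ : ℕ) : WithBot ℕ) ∧ ∃ v : F[X], Irreducible v ∧ ¬ v ∣ N ∧
      E 0 < 2 * v.natDegree ∧ ¬ C v ∣ derivative (pl m N f0 u) ∧
      ∃ t x, aeval t v = 0 ∧ SingAt (pl m N f0 u + C ((N * r) ^ p)) t x}.ncard ≤ 8 * m ^ 2 := by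
  classical
  obtain ⟨R, U, V, hR, hRd, hRe⟩ := elim (derivative (pl m N f0 u)) (dT (pl m N f0 u)) (m - 1)
    (m * h) (nd1 m h N f0 hf0 u) (nd2 m h (by omega) N f0 hf0 u)
    (fun i => by
      rw [coeff_derivative]
      refine natDegree_mul_le.trans ?_
      have h1 : ((i : F[X]) + 1).natDegree = 0 := by
        have := natDegree_natCast (R := F) (i + 1)
        rwa [Nat.cast_add, Nat.cast_one] at this
      rw [h1, add_zero]
      exact cd m h N f0 hf0 E hEi u hu _)
    (fun i => by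
      rw [dT_coeff]
      exact (natDegree_derivative_le _).trans ((Nat.sub_le _ _).trans (cd m h N f0 hf0 E hEi u hu _)))
    hd (fun Z hZ hZ0 h1 h2 => hc ⟨Z, hZ, hZ0, h1, h2⟩)
  have hroot : ∀ (r : F[X]) (t x : AlgebraicClosure F),
      SingAt (pl m N f0 u + C ((N * r) ^ p)) t x → aeval t R = 0 := by
    rintro r t x ⟨-, h2, h3⟩
    rw [der_add] at h2
    rw [dT_add] at h3
    rw [← val_C R t x, hRe, val_add, val_zero' t x _ h2, val_zero' t x _ h3, add_zero]
  set W : Finset F[X] := (UniqueFactorizationMonoid.normalizedFactors R).toFinset.filter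
    (fun v => E 0 < 2 * v.natDegree ∧ ¬ v ∣ N ∧ ¬ C v ∣ derivative (pl m N f0 u)) with hW
  have hWm : ∀ v ∈ W, Irreducible v ∧ v.Monic ∧ v ∣ R ∧ E 0 < 2 * v.natDegree ∧ ¬ v ∣ N ∧
      ¬ C v ∣ derivative (pl m N f0 u) := by
    intro v hv
    rw [hW, Finset.mem_filter, Multiset.mem_toFinset, Polynomial.mem_normalizedFactors_iff hR] at hv
    exact ⟨hv.1.1, hv.1.2.1, hv.1.2.2, hv.2.1, hv.2.2.1, hv.2.2.2⟩
  have hdl := dl_card (F := F) σ
  have hfin : ∀ v : F[X], {r : F[X] | r.degree < ((σ : ℕ) : WithBot ℕ) ∧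
      ∃ t x, aeval t v = 0 ∧ SingAt (pl m N f0 u + C ((N * r) ^ p)) t x}.Finite := fun v =>
    hdl.1.subset fun r hr => hr.1
  have hcardv : ∀ v ∈ W, (hfin v).toFinset.card ≤ m := by
    intro v hv
    obtain ⟨hv1, hv2, hv3, hv4, hv5, hv6⟩ := hWm v hv
    obtain ⟨t₀, ht₀⟩ := IsAlgClosed.exists_aeval_eq_zero (AlgebraicClosure F) v
      hv1.degree_pos.ne'
    have hmin : v = minpoly F t₀ := minpoly.eq_of_irreducible_of_monic hv1 ht₀ hv2
    have hnz := not_zero v hv1 t₀ ht₀ (derivative (pl m N f0 u)) hv6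
    have hex : ∀ r ∈ {r : F[X] | r.degree < ((σ : ℕ) : WithBot ℕ) ∧
        ∃ t x, aeval t v = 0 ∧ SingAt (pl m N f0 u + C ((N * r) ^ p)) t x},
        ∃ x, SingAt (pl m N f0 u + C ((N * r) ^ p)) t₀ x := by
      rintro r ⟨-, t, x, ht, hs⟩
      exact cj _ v hv1 t₀ t x ht₀ ht hs
    choose! g hg using hex
    rw [← Set.ncard_eq_toFinset_card _ (hfin v)]
    refine (Set.ncard_le_ncard_of_injOn g ?_ ?_ hnz.1).trans
      (hnz.2.trans ((nd1 m h N f0 hf0 u).trans (Nat.sub_le _ _)))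
    · intro r hr
      have h1 := (hg r hr).2.1
      rw [der_add] at h1
      exact h1
    · intro r hr r' hr' hrr
      have h1 := (hg r hr).1
      have h2 := (hg r' hr').1
      rw [← hrr] at h2
      rw [val_add, val_C, map_pow, map_mul] at h1 h2
      have h3 : (aeval t₀ N * aeval t₀ r) ^ p = (aeval t₀ N * aeval t₀ r') ^ p :=
        add_left_cancel (h1.trans h2.symm)
      haveI : CharP (AlgebraicClosure F) p :=
        charP_of_injective_algebraMap (algebraMap F (AlgebraicClosure F)).injective p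
      have h4 := pow_p_inj (AlgebraicClosure F) p h3
      have hN0 : aeval t₀ N ≠ 0 := by
        intro h0
        exact hv5 (hmin ▸ minpoly.dvd F t₀ h0)
      have h5 : aeval t₀ (r - r') = 0 := by
        rw [map_sub, sub_eq_zero]
        exact mul_left_cancel₀ hN0 h4
      have h6 : v ∣ r - r' := hmin ▸ minpoly.dvd F t₀ h5
      by_contra hne
      have h7 : r - r' ≠ 0 := sub_ne_zero.2 hne
      have h8 : (r - r').degree < ((σ : ℕ) : WithBot ℕ) :=
        lt_of_le_of_lt (degree_sub_le _ _) (max_lt hr.1 hr'.1)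
      have h9 := natDegree_le_of_dvd h6 h7
      rw [degree_eq_natDegree h7] at h8
      have h10 : (r - r').natDegree < σ := by exact_mod_cast h8
      omega
  have hWc : W.card ≤ 8 * m := by
    have h1 : ∏ v ∈ W, v ∣ R := by
      refine Finset.prod_dvd_of_coprime ?_ fun v hv => (hWm v hv).2.2.1
      intro v hv w hw hvw
      have hv' := hWm v hv
      have hw' := hWm w hw
      rw [Function.onFun, hv'.1.coprime_iff_not_dvd]
      intro hd
      exact hvw (eq_of_monic_of_associated hv'.2.1 hw'.2.1 (hv'.1.associated_of_dvd hw'.1 hd))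
    have h2 := natDegree_le_of_dvd h1 hR
    rw [natDegree_prod_of_monic _ _ fun v hv => (hWm v hv).2.1] at h2
    have h3 : W.card * E 0 ≤ ∑ v ∈ W, 2 * v.natDegree := by
      rw [← smul_eq_mul]
      exact Finset.card_nsmul_le_sum _ _ _ fun v hv => (hWm v hv).2.2.2.1.le
    rw [← Finset.mul_sum] at h3
    have h4 : W.card * E 0 ≤ 8 * m * E 0 := by
      calc W.card * E 0 ≤ 2 * R.natDegree := h3.trans (Nat.mul_le_mul_left _ h2)
        _ ≤ 2 * ((2 * (m - 1) + 1) * (m * h)) := Nat.mul_le_mul_left _ hRd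
        _ ≤ 2 * ((2 * (m - 1) + 1) * (2 * E 0)) :=
          Nat.mul_le_mul_left _ (Nat.mul_le_mul_left _ hE)
        _ = (4 * (2 * (m - 1) + 1)) * E 0 := by ring
        _ ≤ 8 * m * E 0 := Nat.mul_le_mul_right _ (by omega)
    exact Nat.le_of_mul_le_mul_right h4 hE0
  have hsub : {r : F[X] | r.degree < ((σ : ℕ) : WithBot ℕ) ∧ ∃ v : F[X], Irreducible v ∧ ¬ v ∣ N ∧
      E 0 < 2 * v.natDegree ∧ ¬ C v ∣ derivative (pl m N f0 u) ∧
      ∃ t x, aeval t v = 0 ∧ SingAt (pl m N f0 u + C ((N * r) ^ p)) t x} ⊆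
      ((W.biUnion fun v => (hfin v).toFinset : Finset F[X]) : Set F[X]) := by
    rintro r ⟨hr, v, hv, hvN, hvE, hvf, t, x, ht, hs⟩
    rw [Finset.mem_coe, Finset.mem_biUnion]
    have hRt := hroot r t x hs
    refine ⟨normalize v, ?_, ?_⟩
    · rw [hW, Finset.mem_filter, Multiset.mem_toFinset, Polynomial.mem_normalizedFactors_iff hR]
      have hass : Associated (normalize v) v := normalize_associated v
      have hdvd : v ∣ R := by
        have h1 : minpoly F t ∣ R := minpoly.dvd F t hRt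
        have h2 : minpoly F t ∣ v := minpoly.dvd F t ht
        have h3 : Irreducible (minpoly F t) :=
          minpoly.irreducible (Algebra.IsIntegral.isIntegral t)
        exact (h3.associated_of_dvd hv h2).symm.dvd.trans h1
      refine ⟨⟨hass.symm.irreducible hv, monic_normalize hv.ne_zero, hass.dvd.trans hdvd⟩, ?_, ?_, ?_⟩
      · rwa [natDegree_eq_of_degree_eq (degree_normalize (p := v))]
      · intro h1
        exact hvN (hass.symm.dvd.trans h1)
      · intro h1
        exact hvf ((_root_.map_dvd C hass.symm.dvd).trans h1)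
    · rw [Set.Finite.mem_toFinset]
      refine ⟨hr, t, x, ?_, hs⟩
      obtain ⟨c, hc⟩ := (normalize_associated v).symm.dvd
      rw [hc, map_mul, ht, zero_mul]
  calc _ ≤ (((W.biUnion fun v => (hfin v).toFinset : Finset F[X]) : Set F[X])).ncard :=
        Set.ncard_le_ncard hsub (Finset.finite_toSet _)
    _ = (W.biUnion fun v => (hfin v).toFinset).card := Set.ncard_coe_finset _
    _ ≤ W.card * m := Finset.card_biUnion_le_card_mul _ _ _ hcardv
    _ ≤ 8 * m * m := Nat.mul_le_mul_right _ hWc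
    _ = 8 * m ^ 2 := by ring

theorem smg [Finite F] (p : ℕ) [Fact p.Prime] [CharP F p] (m h : ℕ) (hm : 3 ≤ m) (N : F[X])
    (hN : N ≠ 0) (f0 : F[X][X]) (hf0 : Fam m h f0) (E : ℕ → ℕ) (σ : ℕ)
    (hσ : p * σ + p * N.natDegree ≤ E 0) (hσ2 : 2 * σ ≤ E 0) (hE0 : 0 < E 0)
    (hE : m * h ≤ 2 * E 0) (hEi : ∀ i < m, E i + N.natDegree ≤ m * h) :
    {u | u ∈ Bx F m E ∧ dT (pl m N f0 u) ≠ 0 ∧ ¬ ComF (pl m N f0 u) ∧
      ∃ v : F[X], Irreducible v ∧ ¬ v ∣ N ∧ E 0 < 2 * v.natDegree ∧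
        ¬ C v ∣ derivative (pl m N f0 u) ∧ ∃ t x, aeval t v = 0 ∧ SingAt (pl m N f0 u) t x}.ncard *
      Nat.card F ^ σ ≤ 8 * m ^ 2 * (Bx F m E).ncard := by
  classical
  have hp1 : 1 ≤ p := (Fact.out (p := p.Prime)).one_lt.le
  have hm0 : 0 < m := by omega
  have hdl := dl_card (F := F) σ
  have hTc : ((shf p m N) '' {r : F[X] | r.degree < ((σ : ℕ) : WithBot ℕ)}).ncard =
      Nat.card F ^ σ := by
    rw [Set.ncard_image_of_injective _ (shf_inj p m hm0 N hN), hdl.2]
  rw [← hTc]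
  refine tr _ ?_ _ (fun u hu => hu.1) (8 * m ^ 2) ?_
  · rintro w ⟨r, hr, rfl⟩
    exact shf_mem p hp1 m N r hN E σ hσ hr
  · intro u hu
    by_cases hd : dT (pl m N f0 u) = 0
    · refine le_of_eq_of_le ?_ (Nat.zero_le _)
      convert Set.ncard_empty (Fin m → F[X])
      rw [Set.eq_empty_iff_forall_notMem]
      rintro w ⟨⟨r, -, rfl⟩, -, h1, -⟩
      rw [pl_sh p hp1 m hm0, dT_add] at h1
      exact h1 hd
    by_cases hc : ComF (pl m N f0 u)
    · refine le_of_eq_of_le ?_ (Nat.zero_le _)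
      convert Set.ncard_empty (Fin m → F[X])
      rw [Set.eq_empty_iff_forall_notMem]
      rintro w ⟨⟨r, -, rfl⟩, -, -, h1, -⟩
      apply h1
      unfold ComF at hc ⊢
      rwa [pl_sh p hp1 m hm0, der_add, dT_add]
    have hk := key p m h hm N f0 hf0 E σ hσ2 hE0 hE hEi u hu hd hc
    refine le_trans ?_ hk
    refine le_trans (Set.ncard_le_ncard (t := (shf p m N) '' {r : F[X] |
      r.degree < ((σ : ℕ) : WithBot ℕ) ∧ ∃ v : F[X], Irreducible v ∧ ¬ v ∣ N ∧
      E 0 < 2 * v.natDegree ∧ ¬ C v ∣ derivative (pl m N f0 u) ∧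
      ∃ t x, aeval t v = 0 ∧ SingAt (pl m N f0 u + C ((N * r) ^ p)) t x}) ?_
      ((hdl.1.subset fun r hr => hr.1).image _)) (Set.ncard_image_le (hdl.1.subset fun r hr => hr.1))
    rintro w ⟨⟨r, hr, rfl⟩, -, -, -, v, hv, hvN, hvE, hvf, t, x, ht, hs⟩
    refine ⟨r, ⟨hr, v, hv, hvN, hvE, ?_, t, x, ht, ?_⟩, rfl⟩
    · rwa [pl_sh p hp1 m hm0, der_add] at hvf
    · rwa [pl_sh p hp1 m hm0] at hs

end H13.SM
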