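import Pool.Agent.H13.SM.Sma
import Pool.Agent.H13.SM.Smc
import Pool.Agent.H13.SM.Smd
import Pool.Agent.H13.SM.Smg

/-!
# SM-SMH: the bound in one class

`d = deg N`, `E i = (m - i) h - d`, `p` the characteristic, `q = Nat.card F`, `p ≤ q`, `q ≥ 3`. Let `h` be large (`h > d`,
`m h ≤ 2 E 0`, `h ≤ E (m - 2) = 2 h - d`, ...), `σ` with `p σ + p d ≤ E 1` (then also for `E 0`), `2 σ ≤ E 0`, `σ → ∞` for
`h → ∞` (e.g. `σ = (h - d) / (2 p) - d`). Let `u ∈ Bx`, `f = pl m N f0 u`, `(t, x)` a singular point, `N(t) ≠ 0`, `v` monic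
irreducible with `v(t) = 0` (`exists_irr`), `e = deg v`; `v ∤ N`, so `e > M` by `hv`. Cases:
* `C v ∣ f_x`: `e ≤ E (m - 1)` (`smc_a`, at most `q ^ e` monic `v` of degree `e`: share `≤ q ^ (-e)` for each `e`, `M < e`) or
  `e > E (m - 1)` (`smc_b`: share `≤ (d + 1) q ^ (-(h - d))`).
* `C v ∤ f_x` and `2 e ≤ E 0`: `sma`: share `≤ (m - 1) q ^ (-e)` for each `e > M`.
* `C v ∤ f_x`, `2 e > E 0`: `f_t = 0` (`smd`: share `≤ q ^ (m h / 3 + 1 - (m h - d))`), or `ComF f` (`sme`: share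
  `≤ (m - 1) q ^ (-σ)`), or `smg`: share `≤ 8 m ^ 2 q ^ (-σ)`.
Sum: `m ∑_(e > M) q ^ (-e) + o(1) = m q ^ (-(M + 1)) q / (q - 1) + o(1) ≤ 2 m / q ^ (M + 1) + o(1)` where `o(1)` depends only on
`q`, `m`, `d`, `h`.
-/

set_option autoImplicit false

open Polynomial
open Pool.Agent.H94.GG (Fam dT)

noncomputable section

namespace H13.SM

variable {F : Type} [Field F]

private theorem to_x {q : ℕ} (hq : 0 < q) {a c k : ℕ} (h : a * q ^ k ≤ c) :
    (a : ℝ) ≤ c * ((q : ℝ)⁻¹) ^ k := by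
  have hq' : (0 : ℝ) < q := by exact_mod_cast hq
  have h1 : (a : ℝ) * (q : ℝ) ^ k ≤ c := by exact_mod_cast h
  have h2 : (q : ℝ) ^ k * ((q : ℝ)⁻¹) ^ k = 1 := by
    rw [← mul_pow, mul_inv_cancel₀ hq'.ne', one_pow]
  calc (a : ℝ) = a * (q : ℝ) ^ k * ((q : ℝ)⁻¹) ^ k := by rw [mul_assoc, h2, mul_one]
    _ ≤ _ := mul_le_mul_of_nonneg_right h1 (by positivity)

private theorem ub {α ι : Type} (s : Finset ι) (A : ι → Set α) :
    (⋃ i ∈ s, A i).ncard ≤ ∑ i ∈ s, (A i).ncard := by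
  classical
  induction s using Finset.induction_on with
  | empty => simp
  | insert a s ha ih =>
    rw [Finset.set_biUnion_insert, Finset.sum_insert ha]
    exact (Set.ncard_union_le _ _).trans (Nat.add_le_add_left ih _)

/-- sum over the monic polynomials of degree `e` -/
private theorem cls_v [Finite F] {m : ℕ} {E : ℕ → ℕ} (e c : ℕ) (A : F[X] → Set (Fin m → F[X]))
    (hA : ∀ v, A v ⊆ Bx F m E)
    (h : ∀ v : F[X], v.Monic → v.natDegree = e → (A v).ncard * Nat.card F ^ (2 * e) ≤ c) :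
    {u | ∃ v : F[X], v.Monic ∧ v.natDegree = e ∧ u ∈ A v}.ncard * Nat.card F ^ e ≤ c := by
  obtain ⟨hf, hc⟩ := mon_card (F := F) e
  have hq : 0 < Nat.card F := Nat.card_pos
  have h1 : {u | ∃ v : F[X], v.Monic ∧ v.natDegree = e ∧ u ∈ A v} ⊆ ⋃ v ∈ hf.toFinset, A v := by
    rintro u ⟨v, hv1, hv2, hu⟩
    simp only [Set.mem_iUnion]
    exact ⟨v, hf.mem_toFinset.2 ⟨hv1, hv2⟩, hu⟩
  have hfin : (⋃ v ∈ hf.toFinset, A v).Finite := by
    refine (bx_card (F := F) (m := m) (E := E)).1.subset ?_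
    intro u hu
    simp only [Set.mem_iUnion] at hu
    obtain ⟨v, _, hu⟩ := hu
    exact hA v hu
  have h2 := (Set.ncard_le_ncard h1 hfin).trans (ub hf.toFinset A)
  have h3 : (∑ v ∈ hf.toFinset, (A v).ncard) * Nat.card F ^ (2 * e) ≤ Nat.card F ^ e * c := by
    rw [Finset.sum_mul, ← hc, Set.ncard_eq_toFinset_card _ hf, ← smul_eq_mul (a := hf.toFinset.card)]
    refine Finset.sum_le_card_nsmul _ _ _ fun v hv => ?_
    obtain ⟨hv1, hv2⟩ := hf.mem_toFinset.1 hv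
    exact h v hv1 hv2
  have h4 : {u | ∃ v : F[X], v.Monic ∧ v.natDegree = e ∧ u ∈ A v}.ncard * Nat.card F ^ (2 * e) ≤
      Nat.card F ^ e * c := (Nat.mul_le_mul_right _ h2).trans h3
  rw [two_mul, pow_add, ← mul_assoc, mul_comm (Nat.card F ^ e) c] at h4
  exact Nat.le_of_mul_le_mul_right h4 (pow_pos hq e)

private theorem geo {x : ℝ} (h0 : 0 ≤ x) (h1 : x ≤ 1 / 3) (M n : ℕ) :
    ∑ j ∈ Finset.range n, x ^ (M + 1 + j) ≤ 3 / 2 * x ^ (M + 1) := by
  have h2 : ∑ j ∈ Finset.range n, x ^ (M + 1 + j) = x ^ (M + 1) * ∑ j ∈ Finset.range n, x ^ j := by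
    rw [Finset.mul_sum]
    exact Finset.sum_congr rfl fun j _ => pow_add _ _ _
  have h3 := geom_sum_mul_neg x n
  have h4 : 0 ≤ x ^ n := pow_nonneg h0 n
  have h5 : 0 ≤ ∑ j ∈ Finset.range n, x ^ j := Finset.sum_nonneg fun j _ => pow_nonneg h0 j
  have h6 : ∑ j ∈ Finset.range n, x ^ j ≤ 3 / 2 := by nlinarith
  rw [h2, mul_comm (3 / 2 : ℝ)]
  exact mul_le_mul_of_nonneg_left h6 (pow_nonneg h0 _)

private theorem three_le [Finite F] (h2 : (2 : F) ≠ 0) : 3 ≤ Nat.card F := by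
  have h1 : 1 < Nat.card F := Finite.one_lt_card
  rcases Nat.lt_or_ge 2 (Nat.card F) with h | h
  · exact h
  · exfalso
    apply h2
    have h3 : Nat.card F = 2 := by omega
    have : Fintype F := Fintype.ofFinite F
    have h4 := FiniteField.cast_card_eq_zero F
    rw [← Nat.card_eq_fintype_card, h3, Nat.cast_ofNat] at h4
    exact h4

theorem smh [Finite F] (h2 : (2 : F) ≠ 0) (m : ℕ) (hm : 3 ≤ m) (M : ℕ) (N : F[X]) (hN : N ≠ 0)
    (hv : ∀ v : F[X], Irreducible v → v.natDegree ≤ M → v ∣ N) (ε : ℝ) (hε : 0 < ε) :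
    ∃ h0 : ℕ, ∀ h ≥ h0, ∀ f0 : F[X][X], Fam m h f0 →
      ({u | u ∈ Bx F m (En m h N.natDegree) ∧ SingN N (pl m N f0 u)}.ncard : ℝ) ≤
        (2 * m / (Nat.card F : ℝ) ^ (M + 1) + ε) * (Bx F m (En m h N.natDegree)).ncard := by
  classical
  obtain ⟨p, hp⟩ := CharP.exists F
  have hpp : Fact p.Prime := ⟨CharP.char_is_prime F p⟩
  have hq3 := three_le h2
  have hq0 : 0 < Nat.card F := by omega
  obtain ⟨q, hq⟩ : ∃ q : ℕ, q = Nat.card F := ⟨_, rfl⟩
  obtain ⟨x, hx⟩ : ∃ x : ℝ, x = ((Nat.card F : ℕ) : ℝ)⁻¹ := ⟨_, rfl⟩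
  have hx0 : 0 ≤ x := by
    rw [hx]
    positivity
  have hx1 : x ≤ 1 / 3 := by
    rw [hx, one_div]
    exact inv_anti₀ (by norm_num) (by exact_mod_cast hq3)
  obtain ⟨d, hd⟩ : ∃ d, d = N.natDegree := ⟨_, rfl⟩
  obtain ⟨K, hK⟩ : ∃ K : ℕ, ((d + 1 : ℝ) + 1 + (m - 1) + 8 * m ^ 2) * x ^ K ≤ ε := by
    have hm' : (3 : ℝ) ≤ m := by exact_mod_cast hm
    have hC : 0 < (d + 1 : ℝ) + 1 + (m - 1) + 8 * m ^ 2 := by
      have : (0 : ℝ) ≤ d := Nat.cast_nonneg d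
      nlinarith
    obtain ⟨K, hK⟩ := exists_pow_lt_of_lt_one (div_pos hε hC) (by linarith : x < 1)
    refine ⟨K, ?_⟩
    rw [lt_div_iff₀ hC] at hK
    linarith
  refine ⟨p * K + p * d + K + 2 * d + 10, fun h hh f0 hf0 => ?_⟩
  rw [← hd]
  obtain ⟨E, hE⟩ : ∃ E, E = En m h d := ⟨_, rfl⟩
  rw [← hE]
  -- the exponents
  have e0 : E 0 + d = m * h := by
    rw [hE]
    unfold En
    rw [Nat.sub_zero]
    have : d ≤ m * h := by nlinarith
    omega
  have hmh : (m - 1) * h + h = m * h := by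
    obtain ⟨m', rfl⟩ : ∃ m', m = m' + 1 := ⟨m - 1, by omega⟩
    rw [Nat.add_sub_cancel]
    ring
  have hm1 : 2 * h ≤ (m - 1) * h := Nat.mul_le_mul_right _ (by omega)
  have e1 : E 1 + d = (m - 1) * h := by
    rw [hE]
    unfold En
    omega
  have em1 : E (m - 1) + d = h := by
    rw [hE]
    unfold En
    have h3 : m - (m - 1) = 1 := by omega
    rw [h3, one_mul]
    omega
  have em2 : E (m - 2) + d = 2 * h := by
    rw [hE]
    unfold En
    have h3 : m - (m - 2) = 2 := by omega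
    rw [h3]
    omega
  have hEi : ∀ i < m, E i + N.natDegree ≤ m * h := by
    intro i hi
    rw [← hd, hE]
    unfold En
    have h3 : (m - i) * h ≤ m * h := Nat.mul_le_mul_right _ (Nat.sub_le _ _)
    have h4 : 1 * h ≤ (m - i) * h := Nat.mul_le_mul_right _ (by omega)
    omega
  have hσ1 : p * K + p * N.natDegree ≤ E 1 := by
    rw [← hd]
    omega
  have hσ0 : p * K + p * N.natDegree ≤ E 0 := by
    rw [← hd]
    omega
  have h2K : 2 * K ≤ E 0 := by omega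
  have hE0 : 0 < E 0 := by omega
  have hmE : m * h ≤ 2 * E 0 := by omega
  obtain ⟨B, hB⟩ : ∃ B, B = (Bx F m E).ncard := ⟨_, rfl⟩
  have hBf : (Bx F m E).Finite := bx_card.1
  -- the six classes
  obtain ⟨V1, hV1⟩ : ∃ V1 : F[X] → Set (Fin m → F[X]), V1 = fun v =>
      {u | u ∈ Bx F m E ∧ Irreducible v ∧ ¬ v ∣ N ∧ v.natDegree ≤ E (m - 1) ∧
        C v ∣ derivative (pl m N f0 u)} := ⟨_, rfl⟩
  obtain ⟨V3, hV3⟩ : ∃ V3 : F[X] → Set (Fin m → F[X]), V3 = fun v =>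
      {u | u ∈ Bx F m E ∧ Irreducible v ∧ ¬ v ∣ N ∧ 2 * v.natDegree ≤ E 0 ∧
        ¬ C v ∣ derivative (pl m N f0 u) ∧ ∃ t x, aeval t v = 0 ∧ SingAt (pl m N f0 u) t x} :=
    ⟨_, rfl⟩
  obtain ⟨A1, hA1⟩ : ∃ A1 : ℕ → Set (Fin m → F[X]), A1 = fun j =>
      {u | ∃ v : F[X], v.Monic ∧ v.natDegree = M + 1 + j ∧ u ∈ V1 v} := ⟨_, rfl⟩
  obtain ⟨A3, hA3⟩ : ∃ A3 : ℕ → Set (Fin m → F[X]), A3 = fun j =>
      {u | ∃ v : F[X], v.Monic ∧ v.natDegree = M + 1 + j ∧ u ∈ V3 v} := ⟨_, rfl⟩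
  obtain ⟨A2, hA2⟩ : ∃ A2 : Set (Fin m → F[X]), A2 =
      {u | u ∈ Bx F m E ∧ ∃ v : F[X], Irreducible v ∧ ¬ v ∣ N ∧ E (m - 1) < v.natDegree ∧
        C v ∣ derivative (pl m N f0 u)} := ⟨_, rfl⟩
  obtain ⟨A4, hA4⟩ : ∃ A4 : Set (Fin m → F[X]), A4 =
      {u | u ∈ Bx F m E ∧ dT (pl m N f0 u) = 0} := ⟨_, rfl⟩
  obtain ⟨A5, hA5⟩ : ∃ A5 : Set (Fin m → F[X]), A5 =
      {u | u ∈ Bx F m E ∧ dT (pl m N f0 u) ≠ 0 ∧ ComF (pl m N f0 u)} := ⟨_, rfl⟩
  obtain ⟨A6, hA6⟩ : ∃ A6 : Set (Fin m → F[X]), A6 =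
      {u | u ∈ Bx F m E ∧ dT (pl m N f0 u) ≠ 0 ∧ ¬ ComF (pl m N f0 u) ∧
        ∃ v : F[X], Irreducible v ∧ ¬ v ∣ N ∧ E 0 < 2 * v.natDegree ∧
          ¬ C v ∣ derivative (pl m N f0 u) ∧ ∃ t x, aeval t v = 0 ∧ SingAt (pl m N f0 u) t x} :=
    ⟨_, rfl⟩
  have hV1B : ∀ v, V1 v ⊆ Bx F m E := by
    intro v u hu
    rw [hV1] at hu
    exact hu.1
  have hV3B : ∀ v, V3 v ⊆ Bx F m E := by
    intro v u hu
    rw [hV3] at hu
    exact hu.1
  have c1 : ∀ j, (A1 j).ncard * Nat.card F ^ (M + 1 + j) ≤ B := by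
    intro j
    rw [hA1]
    refine cls_v (E := E) (M + 1 + j) B V1 hV1B fun v hv1 hv2 => ?_
    by_cases hc : Irreducible v ∧ ¬ v ∣ N ∧ v.natDegree ≤ E (m - 1)
    · have h3 := smc_a h2 m h hm N f0 hf0 v hc.1 hc.2.1 E hc.2.2 (by omega)
      rw [hv2, ← hB] at h3
      refine (Nat.mul_le_mul_right _ (Set.ncard_le_ncard ?_ (hBf.subset fun u hu => hu.1))).trans h3
      intro u hu
      rw [hV1] at hu
      exact ⟨hu.1, hu.2.2.2.2⟩
    · have h3 : V1 v = ∅ := by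
        rw [Set.eq_empty_iff_forall_notMem]
        intro u hu
        rw [hV1] at hu
        exact hc ⟨hu.2.1, hu.2.2.1, hu.2.2.2.1⟩
      rw [h3, Set.ncard_empty, zero_mul]
      exact Nat.zero_le _
  have c3 : ∀ j, (A3 j).ncard * Nat.card F ^ (M + 1 + j) ≤ (m - 1) * B := by
    intro j
    rw [hA3]
    refine cls_v (E := E) (M + 1 + j) ((m - 1) * B) V3 hV3B fun v hv1 hv2 => ?_
    by_cases hc : Irreducible v ∧ ¬ v ∣ N ∧ 2 * v.natDegree ≤ E 0
    · have h3 := sma m h hm N f0 hf0 v hc.1 hc.2.1 E hc.2.2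
      rw [hv2, ← hB] at h3
      refine (Nat.mul_le_mul_right _ (Set.ncard_le_ncard ?_ (hBf.subset fun u hu => hu.1))).trans h3
      intro u hu
      rw [hV3] at hu
      exact ⟨hu.1, hu.2.2.2.2⟩
    · have h3 : V3 v = ∅ := by
        rw [Set.eq_empty_iff_forall_notMem]
        intro u hu
        rw [hV3] at hu
        exact hc ⟨hu.2.1, hu.2.2.1, hu.2.2.2.1⟩
      rw [h3, Set.ncard_empty, zero_mul]
      exact Nat.zero_le _
  have c2 : A2.ncard * Nat.card F ^ E (m - 1) ≤ (d + 1) * B := by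
    rw [hA2, hB, hd]
    exact smc_b h2 m h hm N hN f0 hf0 E (by rw [← hd]; exact em1) (by omega)
  have c4 : A4.ncard * Nat.card F ^ E 0 ≤ Nat.card F ^ (m * h / 3 + 1) * B := by
    rw [hA4, hB]
    exact smd h2 m h hm N hN f0 hf0 E (by rw [← hd, e0])
  have c5 : A5.ncard * Nat.card F ^ K ≤ (m - 1) * B := by
    rw [hA5, hB]
    exact sme p m h hm N hN f0 hf0 E K hσ1
  have c6 : A6.ncard * Nat.card F ^ K ≤ 8 * m ^ 2 * B := by
    rw [hA6, hB]
    exact smg p m h hm N hN f0 hf0 E K hσ0 h2K hE0 hmE hEi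
  -- the union
  obtain ⟨n, hn⟩ : ∃ n, n = E 0 + E (m - 1) + 1 := ⟨_, rfl⟩
  have hsub : {u | u ∈ Bx F m E ∧ SingN N (pl m N f0 u)} ⊆
      (⋃ j ∈ Finset.range n, A1 j) ∪ (⋃ j ∈ Finset.range n, A3 j) ∪ A2 ∪ A4 ∪ A5 ∪ A6 := by
    rintro u ⟨hu, t, y, hN', hs⟩
    obtain ⟨v, hvi, hvm, hvt⟩ := exists_irr t
    have hvN : ¬ v ∣ N := by
      rintro ⟨w, rfl⟩
      apply hN'
      rw [map_mul, hvt, zero_mul]
    have hdeg : M < v.natDegree := by
      by_contra hc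
      exact hvN (hv v hvi (by omega))
    obtain ⟨j, hj⟩ : ∃ j, v.natDegree = M + 1 + j := ⟨v.natDegree - (M + 1), by omega⟩
    by_cases hc : C v ∣ derivative (pl m N f0 u)
    · by_cases he : v.natDegree ≤ E (m - 1)
      · refine Or.inl (Or.inl (Or.inl (Or.inl (Or.inl ?_))))
        simp only [Set.mem_iUnion]
        refine ⟨j, Finset.mem_range.2 (by omega), ?_⟩
        rw [hA1]
        refine ⟨v, hvm, hj, ?_⟩
        rw [hV1]
        exact ⟨hu, hvi, hvN, he, hc⟩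
      · refine Or.inl (Or.inl (Or.inl (Or.inr ?_)))
        rw [hA2]
        exact ⟨hu, v, hvi, hvN, by omega, hc⟩
    · by_cases he : 2 * v.natDegree ≤ E 0
      · refine Or.inl (Or.inl (Or.inl (Or.inl (Or.inr ?_))))
        simp only [Set.mem_iUnion]
        refine ⟨j, Finset.mem_range.2 (by omega), ?_⟩
        rw [hA3]
        refine ⟨v, hvm, hj, ?_⟩
        rw [hV3]
        exact ⟨hu, hvi, hvN, he, hc, t, y, hvt, hs⟩
      · by_cases hT : dT (pl m N f0 u) = 0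
        · refine Or.inl (Or.inl (Or.inr ?_))
          rw [hA4]
          exact ⟨hu, hT⟩
        · by_cases hC : ComF (pl m N f0 u)
          · refine Or.inl (Or.inr ?_)
            rw [hA5]
            exact ⟨hu, hT, hC⟩
          · refine Or.inr ?_
            rw [hA6]
            exact ⟨hu, hT, hC, v, hvi, hvN, by omega, hc, t, y, hvt, hs⟩
  have hfin : ((⋃ j ∈ Finset.range n, A1 j) ∪ (⋃ j ∈ Finset.range n, A3 j) ∪ A2 ∪ A4 ∪ A5 ∪
      A6).Finite := by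
    refine hBf.subset ?_
    rintro u (((((hu | hu) | hu) | hu) | hu) | hu)
    · simp only [Set.mem_iUnion] at hu
      obtain ⟨j, _, hu⟩ := hu
      rw [hA1] at hu
      obtain ⟨v, _, _, hu⟩ := hu
      exact hV1B v hu
    · simp only [Set.mem_iUnion] at hu
      obtain ⟨j, _, hu⟩ := hu
      rw [hA3] at hu
      obtain ⟨v, _, _, hu⟩ := hu
      exact hV3B v hu
    · rw [hA2] at hu
      exact hu.1
    · rw [hA4] at hu
      exact hu.1
    · rw [hA5] at hu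
      exact hu.1
    · rw [hA6] at hu
      exact hu.1
  have hcard : {u | u ∈ Bx F m E ∧ SingN N (pl m N f0 u)}.ncard ≤
      ∑ j ∈ Finset.range n, (A1 j).ncard + ∑ j ∈ Finset.range n, (A3 j).ncard + A2.ncard + A4.ncard +
        A5.ncard + A6.ncard := by
    refine (Set.ncard_le_ncard hsub hfin).trans ?_
    refine (Set.ncard_union_le _ _).trans (Nat.add_le_add_right ?_ _)
    refine (Set.ncard_union_le _ _).trans (Nat.add_le_add_right ?_ _)
    refine (Set.ncard_union_le _ _).trans (Nat.add_le_add_right ?_ _)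
    refine (Set.ncard_union_le _ _).trans (Nat.add_le_add_right ?_ _)
    exact (Set.ncard_union_le _ _).trans (Nat.add_le_add (ub _ _) (ub _ _))
  have hcard' : ({u | u ∈ Bx F m E ∧ SingN N (pl m N f0 u)}.ncard : ℝ) ≤
      ∑ j ∈ Finset.range n, ((A1 j).ncard : ℝ) + ∑ j ∈ Finset.range n, ((A3 j).ncard : ℝ) + A2.ncard +
        A4.ncard + A5.ncard + A6.ncard := by
    exact_mod_cast hcard
  -- real bounds
  have hB0 : (0 : ℝ) ≤ B := Nat.cast_nonneg B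
  have hm0 : (3 : ℝ) ≤ m := by exact_mod_cast hm
  have hm1c : ((m - 1 : ℕ) : ℝ) = m - 1 := by
    rw [Nat.cast_sub (by omega), Nat.cast_one]
  have r1 : ∑ j ∈ Finset.range n, ((A1 j).ncard : ℝ) ≤ B * (3 / 2 * x ^ (M + 1)) := by
    refine le_trans ?_ (mul_le_mul_of_nonneg_left (geo hx0 hx1 M n) hB0)
    rw [Finset.mul_sum]
    refine Finset.sum_le_sum fun j _ => ?_
    rw [hx]
    exact to_x hq0 (c1 j)
  have r3 : ∑ j ∈ Finset.range n, ((A3 j).ncard : ℝ) ≤ (m - 1) * B * (3 / 2 * x ^ (M + 1)) := by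
    refine le_trans ?_ (mul_le_mul_of_nonneg_left (geo hx0 hx1 M n) (by nlinarith))
    rw [Finset.mul_sum]
    refine Finset.sum_le_sum fun j _ => ?_
    rw [hx]
    have h3 := to_x hq0 (c3 j)
    rw [Nat.cast_mul, hm1c] at h3
    exact h3
  have hxK : ∀ k, K ≤ k → x ^ k ≤ x ^ K := fun k hk =>
    pow_le_pow_of_le_one hx0 (by linarith) hk
  have r2 : (A2.ncard : ℝ) ≤ (d + 1) * B * x ^ K := by
    have h3 := to_x hq0 c2
    rw [← hx] at h3
    push_cast at h3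
    refine h3.trans (mul_le_mul_of_nonneg_left (hxK _ (by omega)) (by positivity))
  have r4 : (A4.ncard : ℝ) ≤ B * x ^ K := by
    have h3 : A4.ncard * Nat.card F ^ K ≤ B := by
      have h4 : m * h / 3 + 1 + K ≤ E 0 := by omega
      have h5 : A4.ncard * Nat.card F ^ K * Nat.card F ^ (m * h / 3 + 1) ≤
          B * Nat.card F ^ (m * h / 3 + 1) := by
        calc A4.ncard * Nat.card F ^ K * Nat.card F ^ (m * h / 3 + 1)
            = A4.ncard * Nat.card F ^ (m * h / 3 + 1 + K) := by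
              rw [pow_add]
              ring
          _ ≤ A4.ncard * Nat.card F ^ E 0 := Nat.mul_le_mul_left _ (Nat.pow_le_pow_right hq0 h4)
          _ ≤ _ := by rw [mul_comm B]; exact c4
      exact Nat.le_of_mul_le_mul_right h5 (pow_pos hq0 _)
    have h4 := to_x hq0 h3
    rwa [← hx] at h4
  have r5 : (A5.ncard : ℝ) ≤ (m - 1) * B * x ^ K := by
    have h3 := to_x hq0 c5
    rwa [← hx, Nat.cast_mul, hm1c] at h3
  have r6 : (A6.ncard : ℝ) ≤ 8 * m ^ 2 * B * x ^ K := by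
    have h3 := to_x hq0 c6
    rw [← hx] at h3
    push_cast at h3
    exact h3
  have hKB : ((d + 1 : ℝ) + 1 + (m - 1) + 8 * m ^ 2) * x ^ K * B ≤ ε * B :=
    mul_le_mul_of_nonneg_right hK hB0
  have hmain : m * B * (3 / 2 * x ^ (M + 1)) ≤ 2 * m * x ^ (M + 1) * B := by
    have h3 : 0 ≤ m * B * x ^ (M + 1) := by positivity
    nlinarith
  have hfinal : 2 * m / (Nat.card F : ℝ) ^ (M + 1) = 2 * m * x ^ (M + 1) := by
    rw [hx, inv_pow, div_eq_mul_inv]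
  rw [hfinal, ← hB, add_mul]
  linarith

end H13.SM
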