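import Pool.Agent.H13.SM.Smh

/-!
# SM-SMI: the conditional form

`fam_fin`: `f` is determined by its coefficients of degree `≤ (m - i) h`. `smoc`: `h0` from `smh`, and `h > d = deg N`. The set
`Y = {f | Fam m h f ∧ S f}` is finite, and for `u ∈ Bx` the map `f ↦ pl m N f u` is a bijection of `Y` (inverse `-u`;
`N u_i` has degree `< (m - i) h`, so `Fam` and `lead` are kept, and the coefficients are kept modulo `N`). Double counting of
the pairs `(f, u) ∈ Y × Bx` with `SingN N (pl m N f u)`: for each `u` there are `#{f ∈ Y, SingN N f}`; for each `f` at most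
`(2 m / q ^ (M + 1) + ε) #Bx` by `smh`. Divide by `#Bx > 0`.
-/

set_option autoImplicit false

open Polynomial
open Pool.Agent.H94.GG (Fam dT lead)

noncomputable section

namespace H13.SM

variable {F : Type} [Field F]

theorem fam_fin [Finite F] (m h : ℕ) : {f : F[X][X] | Fam m h f}.Finite := by
  refine ((bx_card (F := F) (m := m) (E := fun _ => m * h + 1)).1.image
    (fun u => pl m 1 (X ^ m) u)).subset ?_
  intro f hf
  have hf' : Fam m h f := hf
  refine ⟨fun i => f.coeff i, ?_, ?_⟩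
  · intro i
    have h1 := hf'.coeff i i.2
    have h2 : (m - (i : ℕ)) * h ≤ m * h := Nat.mul_le_mul_right _ (Nat.sub_le _ _)
    show (f.coeff i).degree < ((m * h + 1 : ℕ) : WithBot ℕ)
    exact (degree_le_natDegree).trans_lt (by exact_mod_cast (by omega))
  · show pl m 1 (X ^ m) (fun i : Fin m => f.coeff i) = f
    refine Polynomial.ext fun i => ?_
    rw [pl_coeff, coeff_X_pow]
    rcases lt_trichotomy i m with h1 | h1 | h1
    · rw [if_neg (by omega), dif_pos h1, zero_add, one_mul]
    · rw [if_pos h1, dif_neg (by omega), add_zero, h1]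
      have h2 := hf'.monic
      rw [Monic, leadingCoeff, hf'.deg] at h2
      exact h2.symm
    · rw [if_neg (by omega), dif_neg (by omega), add_zero]
      exact (coeff_eq_zero_of_natDegree_lt (by rw [hf'.deg]; exact h1)).symm

private theorem pl_neg (m : ℕ) (N : F[X]) (f : F[X][X]) (u : Fin m → F[X]) :
    pl m N (pl m N f u) (-u) = f := by
  unfold pl
  rw [add_assoc, ← Finset.sum_add_distrib]
  have h1 : ∀ i : Fin m, C (N * u i) * X ^ (i : ℕ) + C (N * (-u) i) * X ^ (i : ℕ) =
      (0 : F[X][X]) := by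
    intro i
    rw [← add_mul, ← C_add, Pi.neg_apply, mul_neg, add_neg_cancel, C_0, zero_mul]
  rw [Finset.sum_congr rfl fun i _ => h1 i, Finset.sum_const_zero, add_zero]

private theorem Nu_deg {m h : ℕ} {N : F[X]} {u : Fin m → F[X]}
    (hu : u ∈ Bx F m (En m h N.natDegree)) (hN : N ≠ 0) (i : Fin m) :
    N * u i = 0 ∨ (N * u i).natDegree < (m - (i : ℕ)) * h := by
  by_cases h0 : u i = 0
  · left
    rw [h0, mul_zero]
  · right
    have h1 : (u i).degree < ((En m h N.natDegree i : ℕ) : WithBot ℕ) := hu i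
    rw [degree_eq_natDegree h0] at h1
    have h2 : (u i).natDegree < (m - (i : ℕ)) * h - N.natDegree := by exact_mod_cast h1
    rw [natDegree_mul hN h0]
    omega

private theorem fam_pl {m h : ℕ} {N : F[X]} (hN : N ≠ 0) {f : F[X][X]} (hf : Fam m h f)
    {u : Fin m → F[X]} (hu : u ∈ Bx F m (En m h N.natDegree)) :
    Fam m h (pl m N f u) ∧ lead m h (pl m N f u) = lead m h f ∧
      ∀ i, N ∣ f.coeff i - (pl m N f u).coeff i := by
  have hc : ∀ i : ℕ, (hi : i < m) → (pl m N f u).coeff i = f.coeff i + N * u ⟨i, hi⟩ := by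
    intro i hi
    rw [pl_coeff, dif_pos hi]
  have hc' : ∀ i : ℕ, m ≤ i → (pl m N f u).coeff i = f.coeff i := by
    intro i hi
    rw [pl_coeff, dif_neg (by omega), add_zero]
  have hm1 : (pl m N f u).coeff m = 1 := by
    rw [hc' m le_rfl]
    have h2 := hf.monic
    rw [Monic, leadingCoeff, hf.deg] at h2
    exact h2
  have hle : (pl m N f u).natDegree ≤ m := by
    rw [natDegree_le_iff_coeff_eq_zero]
    intro i hi
    rw [hc' i hi.le]
    exact coeff_eq_zero_of_natDegree_lt (by rw [hf.deg]; exact hi)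
  have hd : (pl m N f u).natDegree = m := by
    refine le_antisymm hle (le_natDegree_of_ne_zero ?_)
    rw [hm1]
    exact one_ne_zero
  refine ⟨⟨?_, hd, ?_⟩, ?_, ?_⟩
  · rw [Monic, leadingCoeff, hd, hm1]
  · intro i hi
    rw [hc i hi]
    refine (natDegree_add_le _ _).trans (max_le (hf.coeff i hi) ?_)
    rcases Nu_deg hu hN ⟨i, hi⟩ with h1 | h1
    · rw [h1, natDegree_zero]
      exact Nat.zero_le _
    · exact h1.le
  · unfold lead
    refine Finset.sum_congr rfl fun i hi => ?_
    rw [Finset.mem_range] at hi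
    by_cases him : i < m
    · rw [hc i him, coeff_add]
      have h1 : (N * u ⟨i, him⟩).coeff ((m - i) * h) = 0 := by
        rcases Nu_deg hu hN ⟨i, him⟩ with h1 | h1
        · rw [h1, coeff_zero]
        · exact coeff_eq_zero_of_natDegree_lt h1
      rw [h1, add_zero]
    · rw [hc' i (by omega)]
  · intro i
    by_cases him : i < m
    · rw [hc i him]
      exact ⟨-u ⟨i, him⟩, by ring⟩
    · rw [hc' i (by omega), sub_self]
      exact dvd_zero N

theorem smoc [Finite F] (h2 : (2 : F) ≠ 0) (m : ℕ) (hm : 3 ≤ m) (M : ℕ) (N : F[X]) (hN : N ≠ 0)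
    (hv : ∀ v : F[X], Irreducible v → v.natDegree ≤ M → v ∣ N) (ε : ℝ) (hε : 0 < ε) :
    ∃ h0 : ℕ, ∀ h ≥ h0, ∀ S : F[X][X] → Prop,
      (∀ f f' : F[X][X], Fam m h f → Fam m h f' → lead m h f = lead m h f' →
        (∀ i, N ∣ f.coeff i - f'.coeff i) → S f → S f') →
      (Nat.card {f : F[X][X] // Fam m h f ∧ S f ∧ SingN N f} : ℝ) ≤
        (2 * m / (Nat.card F : ℝ) ^ (M + 1) + ε) * Nat.card {f : F[X][X] // Fam m h f ∧ S f} := by
  classical
  obtain ⟨h0, hh0⟩ := smh h2 m hm M N hN hv ε hε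
  refine ⟨h0, fun h hh S hS => ?_⟩
  obtain ⟨c, hc⟩ : ∃ c : ℝ, c = 2 * m / (Nat.card F : ℝ) ^ (M + 1) + ε := ⟨_, rfl⟩
  have hsm := hh0 h hh
  rw [← hc] at hsm ⊢
  have hYf : {f : F[X][X] | Fam m h f ∧ S f}.Finite :=
    (fam_fin m h).subset fun f hf => hf.1
  have hBf : (Bx F m (En m h N.natDegree)).Finite := bx_card.1
  obtain ⟨Y, hY⟩ : ∃ Y : Finset F[X][X], Y = hYf.toFinset := ⟨_, rfl⟩
  obtain ⟨B, hB⟩ : ∃ B : Finset (Fin m → F[X]), B = hBf.toFinset := ⟨_, rfl⟩
  have hYm : ∀ f, f ∈ Y ↔ Fam m h f ∧ S f := fun f => by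
    rw [hY, Set.Finite.mem_toFinset]
    rfl
  have hBm : ∀ u, u ∈ B ↔ u ∈ Bx F m (En m h N.natDegree) := fun u => by
    rw [hB, Set.Finite.mem_toFinset]
  have hneg : ∀ u ∈ B, -u ∈ B := by
    intro u hu
    rw [hBm] at hu ⊢
    intro i
    rw [Pi.neg_apply, degree_neg]
    exact hu i
  have hmem : ∀ f ∈ Y, ∀ u ∈ B, pl m N f u ∈ Y := by
    intro f hf u hu
    rw [hYm] at hf ⊢
    rw [hBm] at hu
    obtain ⟨h3, h4, h5⟩ := fam_pl hN hf.1 hu
    exact ⟨h3, hS f _ hf.1 h3 h4.symm h5 hf.2⟩
  -- double counting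
  have hdc : ∑ f ∈ Y, (B.filter fun u => SingN N (pl m N f u)).card =
      ∑ u ∈ B, (Y.filter fun f => SingN N (pl m N f u)).card := by
    simp only [Finset.card_filter]
    exact Finset.sum_comm
  have hu1 : ∀ u ∈ B, (Y.filter fun f => SingN N (pl m N f u)).card =
      (Y.filter fun f => SingN N f).card := by
    intro u hu
    refine Finset.card_nbij' (fun f => pl m N f u) (fun f => pl m N f (-u)) ?_ ?_ ?_ ?_
    · intro f hf
      rw [Finset.mem_coe, Finset.mem_filter] at hf ⊢
      exact ⟨hmem f hf.1 u hu, hf.2⟩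
    · intro f hf
      rw [Finset.mem_coe, Finset.mem_filter] at hf ⊢
      refine ⟨hmem f hf.1 (-u) (hneg u hu), ?_⟩
      have h3 := pl_neg m N f (-u)
      rw [neg_neg] at h3
      rw [h3]
      exact hf.2
    · intro f _
      exact pl_neg m N f u
    · intro f _
      have h3 := pl_neg m N f (-u)
      rw [neg_neg] at h3
      exact h3
  have hf1 : ∀ f ∈ Y, ((B.filter fun u => SingN N (pl m N f u)).card : ℝ) ≤ c * B.card := by
    intro f hf
    have h3 := hsm f ((hYm f).1 hf).1
    have h4 : {u | u ∈ Bx F m (En m h N.natDegree) ∧ SingN N (pl m N f u)}.ncard =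
        (B.filter fun u => SingN N (pl m N f u)).card := by
      rw [← Set.ncard_coe_finset]
      congr 1
      ext u
      rw [Finset.mem_coe, Finset.mem_filter, hBm]
      rfl
    have h5 : (Bx F m (En m h N.natDegree)).ncard = B.card := by
      rw [← Set.ncard_coe_finset]
      congr 1
      ext u
      rw [Finset.mem_coe, hBm]
    rw [h4, h5] at h3
    exact h3
  have hBpos : 0 < B.card := by
    refine Finset.card_pos.2 ⟨0, ?_⟩
    rw [hBm]
    intro i
    rw [Pi.zero_apply, degree_zero]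
    exact WithBot.bot_lt_coe _
  have hmain : (B.card : ℝ) * (Y.filter fun f => SingN N f).card ≤ B.card * (c * Y.card) := by
    have e1 : ((∑ f ∈ Y, (B.filter fun u => SingN N (pl m N f u)).card : ℕ) : ℝ) =
        B.card * (Y.filter fun f => SingN N f).card := by
      rw [hdc, Finset.sum_congr rfl hu1, Finset.sum_const, smul_eq_mul]
      push_cast
      ring
    rw [← e1, Nat.cast_sum]
    calc ∑ f ∈ Y, ((B.filter fun u => SingN N (pl m N f u)).card : ℝ)
        ≤ ∑ f ∈ Y, c * B.card := Finset.sum_le_sum hf1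
      _ = B.card * (c * Y.card) := by
          rw [Finset.sum_const, nsmul_eq_mul]
          ring
  have hfin := le_of_mul_le_mul_left hmain (by exact_mod_cast hBpos)
  have e2 : Nat.card {f : F[X][X] // Fam m h f ∧ S f ∧ SingN N f} =
      (Y.filter fun f => SingN N f).card := by
    refine Nat.subtype_card _ fun f => ?_
    rw [Finset.mem_filter, hYm, and_assoc]
  have e3 : Nat.card {f : F[X][X] // Fam m h f ∧ S f} = Y.card :=
    Nat.subtype_card _ fun f => hYm f
  rw [e2, e3]
  exact hfin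

end H13.SM
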