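import Pool.Agent.H13.SM.Cj

/-!
# SM-SMJ: a curve which is not smooth has a singular point

`sing`: the ideal `(f, f_x, f_t)` is contained in a maximal ideal `P` of `F[X][X]`; `F[X][X] / P` is a field, of finite type over
`F`, so finite over `F` (`finite_of_finite_type_of_isJacobsonRing`), so it embeds over `F` in the algebraic closure
(`IsAlgClosed.lift`); `t`, `x` = the images of `C X` and `X`; `val g t x` is the image of `g`. `sing_sep`: if `f` modulo `v` is
separable, `1 = A f + B f_x` modulo `v`, so `val` at `(t, x)` with `v(t) = 0` gives `1 = 0` if `f` and `f_x` vanish (lift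
`A`, `B` to `F[X][X]`: `1 - A f - B f_x ∈ (C v)`).
-/

set_option autoImplicit false

open Polynomial
open Pool.Agent.H94.GG (Fam dT lead Smooth)

noncomputable section

namespace H13.SM

variable {F : Type} [Field F]

private theorem val_eq (φ : F[X][X] →ₐ[F] AlgebraicClosure F) (g : F[X][X]) :
    val g (φ (C X)) (φ X) = φ g := by
  have h1 : ((aeval (φ (C X)) : F[X] →ₐ[F] AlgebraicClosure F) : F[X] →+* AlgebraicClosure F) =
      (φ : F[X][X] →+* AlgebraicClosure F).comp C := by
    have h2 : φ.comp (CAlgHom : F[X] →ₐ[F] F[X][X]) = aeval (φ (C X)) := by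
      refine Polynomial.algHom_ext ?_
      rw [aeval_X]
      rfl
    have h3 := congrArg (fun ψ : F[X] →ₐ[F] AlgebraicClosure F => (ψ : F[X] →+* AlgebraicClosure F)) h2
    exact h3.symm
  unfold val
  rw [h1]
  have h4 : eval₂ ((φ : F[X][X] →+* AlgebraicClosure F).comp C) (φ X) g =
      (φ : F[X][X] →+* AlgebraicClosure F) g := by
    have h5 := hom_eval₂ g C (φ : F[X][X] →+* AlgebraicClosure F) X
    rw [eval₂_C_X] at h5
    exact h5.symm
  exact h4

theorem sing (f : F[X][X]) (hf : ¬ Smooth f) : ∃ t x : AlgebraicClosure F, SingAt f t x := by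
  obtain ⟨P, hP, hfP⟩ := Ideal.exists_le_maximal _ hf
  letI : Field (F[X][X] ⧸ P) := Ideal.Quotient.field P
  haveI h1 : Algebra.FiniteType F F[X][X] := Algebra.FiniteType.trans (S := F[X]) inferInstance inferInstance
  haveI h2 : Algebra.FiniteType F (F[X][X] ⧸ P) :=
    Algebra.FiniteType.of_surjective (Ideal.Quotient.mkₐ F P) (Ideal.Quotient.mkₐ_surjective F P)
  haveI h3 : Module.Finite F (F[X][X] ⧸ P) := finite_of_finite_type_of_isJacobsonRing F (F[X][X] ⧸ P)
  let ψ : (F[X][X] ⧸ P) →ₐ[F] AlgebraicClosure F := IsAlgClosed.lift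
  let φ : F[X][X] →ₐ[F] AlgebraicClosure F := ψ.comp (Ideal.Quotient.mkₐ F P)
  have h4 : ∀ g ∈ ({f, derivative f, dT f} : Set F[X][X]), φ g = 0 := by
    intro g hg
    have h5 : g ∈ P := hfP (Ideal.subset_span hg)
    show ψ (Ideal.Quotient.mk P g) = 0
    rw [Ideal.Quotient.eq_zero_iff_mem.2 h5, map_zero]
  refine ⟨φ (C X), φ X, ?_, ?_, ?_⟩
  · rw [val_eq]
    exact h4 _ (by simp)
  · rw [val_eq]
    exact h4 _ (by simp)
  · rw [val_eq]
    exact h4 _ (by simp)

theorem sing_sep (f : F[X][X]) (v : F[X]) (hs : (f.map (Ideal.Quotient.mk (Ideal.span {v}))).Separable)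
    (t x : AlgebraicClosure F) (ht : aeval t v = 0) : ¬ SingAt f t x := by
  rintro ⟨h1, h2, -⟩
  let θ : F[X] ⧸ Ideal.span {v} →+* AlgebraicClosure F :=
    Ideal.Quotient.lift (Ideal.span {v}) ((aeval t : F[X] →ₐ[F] AlgebraicClosure F) : F[X] →+* AlgebraicClosure F)
      (by
        intro a ha
        obtain ⟨b, rfl⟩ := Ideal.mem_span_singleton.1 ha
        show aeval t (v * b) = 0
        rw [map_mul, ht, zero_mul])
  have hθ : θ.comp (Ideal.Quotient.mk (Ideal.span {v})) =
      ((aeval t : F[X] →ₐ[F] AlgebraicClosure F) : F[X] →+* AlgebraicClosure F) := by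
    ext a
    · rfl
    · rfl
  have hv : ∀ g : F[X][X], eval₂ θ x (g.map (Ideal.Quotient.mk (Ideal.span {v}))) = val g t x := by
    intro g
    rw [eval₂_map, hθ]
    rfl
  obtain ⟨a, b, hab⟩ := hs
  have h3 := congrArg (eval₂ θ x) hab
  rw [eval₂_add, eval₂_mul, eval₂_mul, eval₂_one, derivative_map, hv, hv, h1, h2, mul_zero, mul_zero, add_zero] at h3
  exact zero_ne_one h3

end H13.SM
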