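import Pool.Agent.H94.GG.Defs
import Pool.Agent.H13.TA.SmB

/-!
# SM-SMK: irreducible leading form

`irr`: let `f = A B`. The leading coefficients in `x` of `A`, `B` are inverse constants (their product is `1`), so we may take
`A`, `B` monic of degrees `m₁ + m₂ = m`. Give `t ^ j x ^ i` the weight `j + h i` (the top weight form of a polynomial is
multiplicative: it is the leading coefficient in `T` of the image under `F[t][x] → F[x][T]`, `t ↦ T`, `x ↦ x T ^ h`, a ring
homomorphism into polynomials over the domain `F[x]`). The image of `f` has degree `m h` in `T` and leading coefficient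
`lead m h f` (`Fam`; the coefficient of `T ^ (m h)` is `∑_i [t ^ ((m - i) h)] f_i x ^ i`). The images of `A`, `B` have degrees
`≥ m₁ h`, `≥ m₂ h` in `T` (coefficient `x ^ (m₁)` of `T ^ (m₁ h)` from the monic term), so equality holds, and the
leading coefficients are monic in `x` of degrees `m₁`, `m₂` (the terms `t ^ j x ^ i` of weight `m₁ h` have `i ≤ m₁`). So
`lead m h f` is a product of polynomials of degrees `m₁`, `m₂`; it is irreducible, so `m₁ = 0` or `m₂ = 0`. `ded`: `O` is a
domain (`AdjoinRoot.isDomain_of_prime`, `F[X][X]` is factorial) and `H13.TA.sm_ded` (`H13.TA.dt` and `dT` are the same by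
definition).
-/

set_option autoImplicit false

open Polynomial
open Pool.Agent.H94.GG (Fam dT lead Smooth)

noncomputable section

namespace H13.SM

variable {F : Type} [Field F]

/-- the ring homomorphism `t ↦ T`, `x ↦ x T ^ h` into `F[x][T]` -/
private def Phi (h : ℕ) : F[X][X] →+* F[X][X] := eval₂RingHom (mapRingHom C) (C X * X ^ h)

private theorem Phi_coeff (h : ℕ) (g : F[X][X]) (k i : ℕ) :
    ((Phi h g).coeff k).coeff i = if h * i ≤ k then (g.coeff i).coeff (k - h * i) else 0 := by
  induction g using Polynomial.induction_on' with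
  | add p q hp hq =>
    rw [map_add, coeff_add, coeff_add, hp, hq]
    split_ifs
    · rw [coeff_add, coeff_add]
    · rw [add_zero]
  | monomial j c =>
    have h1 : Phi h (monomial j c) = (c.map C * C (X ^ j)) * X ^ (h * j) := by
      unfold Phi
      rw [coe_eval₂RingHom, eval₂_monomial, coe_mapRingHom, mul_pow, ← C_pow, ← pow_mul,
        mul_assoc]
    rw [h1, coeff_mul_X_pow', coeff_monomial]
    by_cases hij : j = i
    · subst hij
      rw [if_pos rfl]
      split_ifs
      · rw [coeff_mul_C, coeff_map, coeff_C_mul, coeff_X_pow, if_pos rfl, mul_one]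
      · rfl
    · rw [if_neg hij]
      have h2 : ∀ l, ((c.map C * C (X ^ j) : F[X][X]).coeff l).coeff i = 0 := by
        intro l
        rw [coeff_mul_C, coeff_map, coeff_C_mul, coeff_X_pow, if_neg (Ne.symm hij), mul_zero]
      split_ifs <;> simp only [h2, coeff_zero]

private theorem lead_coeff (m h : ℕ) (f : F[X][X]) (i : ℕ) :
    (lead m h f).coeff i = if i ≤ m then (f.coeff i).coeff ((m - i) * h) else 0 := by
  unfold Pool.Agent.H94.GG.lead
  rw [finsetSum_coeff]
  simp only [coeff_C_mul, coeff_X_pow]
  by_cases hi : i ≤ m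
  · rw [if_pos hi, Finset.sum_eq_single i]
    · rw [if_pos rfl, mul_one]
    · intro j _ hj
      rw [if_neg (Ne.symm hj), mul_zero]
    · intro h1
      exact absurd (Finset.mem_range.2 (by omega)) h1
  · rw [if_neg hi]
    refine Finset.sum_eq_zero fun j hj => ?_
    have := Finset.mem_range.1 hj
    rw [if_neg (by omega), mul_zero]

theorem irr (m h : ℕ) (hm : m ≠ 0) (f : F[X][X]) (hf : Fam m h f)
    (hl : Irreducible (lead m h f)) : Irreducible f := by
  have hfm : f.coeff m = 1 := by
    have := hf.monic.coeff_natDegree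
    rwa [hf.deg] at this
  have hbig : ∀ i, m < i → f.coeff i = 0 := fun i hi =>
    coeff_eq_zero_of_natDegree_lt (by rw [hf.deg]; exact hi)
  have hL : (Phi h f).coeff (m * h) = lead m h f := by
    ext i
    rw [Phi_coeff, lead_coeff]
    rcases Nat.lt_or_ge m i with hi | hi
    · rw [hbig i hi, if_neg (Nat.not_le.2 hi)]
      split_ifs
      · exact coeff_zero _
      · rfl
    · have h1 : h * i ≤ m * h := by
        rw [mul_comm]
        exact Nat.mul_le_mul_right h hi
      rw [if_pos h1, if_pos hi, Nat.sub_mul, mul_comm h i]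
  have hdeg : (Phi h f).natDegree ≤ m * h := by
    rw [natDegree_le_iff_coeff_eq_zero]
    intro k hk
    ext i
    rw [Phi_coeff, coeff_zero]
    split_ifs with hik
    · rcases lt_trichotomy i m with hi | hi | hi
      · apply coeff_eq_zero_of_natDegree_lt
        have h1 := hf.coeff i hi
        rw [Nat.sub_mul] at h1
        have h2 : i * h ≤ m * h := Nat.mul_le_mul_right h hi.le
        rw [mul_comm h i] at hik ⊢
        omega
      · subst hi
        rw [hfm, coeff_one, if_neg]
        rw [mul_comm h i]
        omega
      · rw [hbig i hi, coeff_zero]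
    · rfl
  have hf1 : f ≠ 1 := by
    rintro rfl
    apply hm
    rw [← hf.deg, natDegree_one]
  have hone : ∀ A : F[X][X], A.Monic →
      ((Phi h A).coeff (A.natDegree * h)).coeff A.natDegree = 1 := by
    intro A hA
    rw [Phi_coeff, if_pos (by rw [mul_comm]), mul_comm h, Nat.sub_self, hA.coeff_natDegree,
      coeff_one_zero]
  have hne : ∀ A : F[X][X], A.Monic → (Phi h A).coeff (A.natDegree * h) ≠ 0 := by
    intro A hA h0
    have h1 := hone A hA
    rw [h0, coeff_zero] at h1
    exact zero_ne_one h1
  have hge : ∀ A : F[X][X], A.Monic → A.natDegree * h ≤ (Phi h A).natDegree :=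
    fun A hA => le_natDegree_of_ne_zero (hne A hA)
  have hne0 : ∀ A : F[X][X], A.Monic → Phi h A ≠ 0 := by
    intro A hA h0
    apply hne A hA
    rw [h0, coeff_zero]
  rw [hf.monic.irreducible_iff_natDegree]
  refine ⟨hf1, fun A B hA hB hAB => ?_⟩
  have hprod : Phi h A * Phi h B = Phi h f := by rw [← map_mul, hAB]
  have hnd : (Phi h A).natDegree + (Phi h B).natDegree = (Phi h f).natDegree := by
    rw [← hprod, natDegree_mul (hne0 A hA) (hne0 B hB)]
  have hAB' : A.natDegree + B.natDegree = m := by
    rw [← hf.deg, ← hAB, hA.natDegree_mul hB]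
  have hA1 := hge A hA
  have hB1 := hge B hB
  have hmh : A.natDegree * h + B.natDegree * h = m * h := by rw [← add_mul, hAB']
  have eA : (Phi h A).natDegree = A.natDegree * h := by omega
  have eB : (Phi h B).natDegree = B.natDegree * h := by omega
  have hlc : (Phi h A).coeff (A.natDegree * h) * (Phi h B).coeff (B.natDegree * h) =
      lead m h f := by
    rw [← hL, ← hprod, ← hmh, ← eA, ← eB]
    exact (coeff_mul_degree_add_degree _ _).symm
  rcases hl.isUnit_or_isUnit hlc.symm with hu | hu
  · left
    have h1 := natDegree_eq_zero_of_isUnit hu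
    have h2 : A.natDegree ≤ ((Phi h A).coeff (A.natDegree * h)).natDegree :=
      le_natDegree_of_ne_zero (by rw [hone A hA]; exact one_ne_zero)
    omega
  · right
    have h1 := natDegree_eq_zero_of_isUnit hu
    have h2 : B.natDegree ≤ ((Phi h B).coeff (B.natDegree * h)).natDegree :=
      le_natDegree_of_ne_zero (by rw [hone B hB]; exact one_ne_zero)
    omega

theorem ded (m h : ℕ) (hm : m ≠ 0) (f : F[X][X]) (hf : Fam m h f)
    (hl : Irreducible (lead m h f)) (hs : Smooth f) : IsDedekindDomain (AdjoinRoot f) := by
  have hirr := irr m h hm f hf hl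
  have hdom : IsDomain (AdjoinRoot f) := AdjoinRoot.isDomain_of_prime hirr.prime
  exact H13.TA.sm_ded hf.monic hs

end H13.SM
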