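import Pool.Agent.H13.SM.Smi
import Pool.Agent.H13.SM.Smj
import Pool.Agent.H13.SM.Smk

/-!
# SM-SMO: almost all curves are smooth
-/

set_option autoImplicit false

open Polynomial
open Pool.Agent.H94.GG (Fam dT lead Smooth)

noncomputable section

namespace H13.SM

theorem smo (m : ℕ) (hm : 3 ≤ m) (η : ℝ) (hη : 0 < η) : ∃ q0 : ℕ, ∀ (F : Type) [Field F] [Finite F],
    (2 : F) ≠ 0 → q0 ≤ Nat.card F → ∃ h0 : ℕ, ∀ h ≥ h0,
      (Nat.card {f : F[X][X] // Fam m h f ∧ ¬ Smooth f} : ℝ) ≤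
        η * Nat.card {f : F[X][X] // Fam m h f} := by
  obtain ⟨q0, hq0⟩ := exists_nat_gt (4 * m / η)
  refine ⟨q0, fun F _ _ h2 hq => ?_⟩
  have hq1 : (0 : ℝ) < Nat.card F := by exact_mod_cast Nat.card_pos
  obtain ⟨h0, h⟩ := smoc h2 m hm 0 (1 : F[X]) one_ne_zero (by
    intro v hv hv0
    exact absurd hv.natDegree_pos (by omega)) (η / 2) (by linarith)
  refine ⟨h0, fun h' hh => ?_⟩
  have h3 := h h' hh (fun _ => True) (fun _ _ _ _ _ _ _ => trivial)
  have hfin : Finite {f : F[X][X] // Fam m h' f} := fam_fin m h'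
  have e1 : Nat.card {f : F[X][X] // Fam m h' f ∧ True} =
      Nat.card {f : F[X][X] // Fam m h' f} := by
    refine Nat.card_congr (Equiv.subtypeEquivRight fun f => ?_)
    exact and_iff_left trivial
  have hfin' : Finite {f : F[X][X] // Fam m h' f ∧ True ∧ SingN 1 f} := by
    refine Finite.of_injective (fun f => (⟨f.1, f.2.1⟩ : {f : F[X][X] // Fam m h' f})) ?_
    intro f g hfg
    have h5 := Subtype.ext_iff.1 hfg
    exact Subtype.ext h5
  have e2 : Nat.card {f : F[X][X] // Fam m h' f ∧ ¬ Smooth f} ≤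
      Nat.card {f : F[X][X] // Fam m h' f ∧ True ∧ SingN 1 f} := by
    refine Nat.card_le_card_of_injective (fun f => ⟨f.1, f.2.1, trivial, ?_⟩) ?_
    · obtain ⟨t, x, htx⟩ := sing f.1 f.2.2
      exact ⟨t, x, by rw [map_one]; exact one_ne_zero, htx⟩
    · intro f g hfg
      have h5 := Subtype.ext_iff.1 hfg
      exact Subtype.ext h5
  have e3 : 2 * (m : ℝ) / (Nat.card F : ℝ) ^ (0 + 1) ≤ η / 2 := by
    rw [zero_add, pow_one, div_le_iff₀ hq1]
    have h4 : 4 * (m : ℝ) / η < Nat.card F := lt_of_lt_of_le hq0 (by exact_mod_cast hq)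
    rw [div_lt_iff₀ hη] at h4
    linarith
  have e4 : (0 : ℝ) ≤ Nat.card {f : F[X][X] // Fam m h' f} := Nat.cast_nonneg _
  rw [e1] at h3
  calc (Nat.card {f : F[X][X] // Fam m h' f ∧ ¬ Smooth f} : ℝ)
      ≤ Nat.card {f : F[X][X] // Fam m h' f ∧ True ∧ SingN 1 f} := by exact_mod_cast e2
    _ ≤ _ := h3
    _ ≤ η * Nat.card {f : F[X][X] // Fam m h' f} := by
        apply mul_le_mul_of_nonneg_right _ e4
        linarith

end H13.SM
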