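import Pool.Agent.H13.SM.Defs

/-!
# SM-TR: counting in boxes by translations

`dl_card`: the polynomials of degree `< E` are the vectors of their `E` coefficients (`Polynomial.degreeLT`,
`Polynomial.degreeLTEquiv`). `bx_card`: `Bx` is the product of these sets. `tr`: `Bx` is an additive group, each translation
by `w ∈ T` is a bijection of `Bx`. Double counting of the pairs `(u, w) ∈ Bx × T` with `u + w ∈ A`: for each `w` there are
`A.ncard` of them, for each `u` at most `K`. `fib`: `tr` with `T` = the `u` with `u_i = 0` for `i ≠ i₀`. `fib2`: the same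
with two coordinates (`T` = the `u` with `u_i = 0` for `i ≠ i₁, i₂`).
-/

set_option autoImplicit false

open Polynomial

noncomputable section

namespace H13.SM

variable {F : Type} [Field F] {m : ℕ} {E : ℕ → ℕ}

private theorem dl_eq (n : ℕ) : {w : F[X] | w.degree < ((n : ℕ) : WithBot ℕ)} = (degreeLT F n : Set F[X]) := by
  ext w
  exact mem_degreeLT.symm

theorem dl_card [Finite F] (n : ℕ) : {w : F[X] | w.degree < ((n : ℕ) : WithBot ℕ)}.Finite ∧
    {w : F[X] | w.degree < ((n : ℕ) : WithBot ℕ)}.ncard = Nat.card F ^ n := by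
  rw [dl_eq]
  have hfin : Finite (degreeLT F n) := Finite.of_equiv _ (degreeLTEquiv F n).toEquiv.symm
  constructor
  · exact Set.toFinite _
  · rw [← Nat.card_coe_set_eq]
    have h1 : Nat.card (degreeLT F n) = Nat.card (Fin n → F) := Nat.card_congr (degreeLTEquiv F n).toEquiv
    have h2 : Nat.card (Fin n → F) = Nat.card F ^ n := by
      rw [Nat.card_fun, Nat.card_eq_fintype_card (α := Fin n), Fintype.card_fin]
    exact h1.trans h2

private def bxEquiv (F : Type) [Field F] (m : ℕ) (E : ℕ → ℕ) :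
    ↥(Bx F m E) ≃ ∀ i : Fin m, {w : F[X] // w.degree < ((E i : ℕ) : WithBot ℕ)} where
  toFun u i := ⟨u.1 i, u.2 i⟩
  invFun v := ⟨fun i => (v i).1, fun i => (v i).2⟩
  left_inv _ := rfl
  right_inv _ := rfl

private theorem dl_fin [Finite F] (n : ℕ) : Finite {w : F[X] // w.degree < ((n : ℕ) : WithBot ℕ)} :=
  (dl_card (F := F) n).1.to_subtype

theorem bx_card [Finite F] : (Bx F m E).Finite ∧
    (Bx F m E).ncard = Nat.card F ^ ∑ i : Fin m, E i := by
  have hf : ∀ i : Fin m, Finite {w : F[X] // w.degree < ((E i : ℕ) : WithBot ℕ)} := fun i => dl_fin (E i)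
  have hfin : Finite ↥(Bx F m E) := Finite.of_equiv _ (bxEquiv F m E).symm
  constructor
  · exact Set.toFinite _
  · rw [← Nat.card_coe_set_eq, Nat.card_congr (bxEquiv F m E), Nat.card_pi, ← Finset.prod_pow_eq_pow_sum]
    refine Finset.prod_congr rfl fun i _ => ?_
    exact (dl_card (F := F) (E i)).2

theorem bx_add {u w : Fin m → F[X]} (hu : u ∈ Bx F m E) (hw : w ∈ Bx F m E) :
    u + w ∈ Bx F m E := by
  intro i
  exact (degree_add_le _ _).trans_lt (max_lt (hu i) (hw i))

private theorem bx_sub {u w : Fin m → F[X]} (hu : u ∈ Bx F m E) (hw : w ∈ Bx F m E) :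
    u - w ∈ Bx F m E := by
  intro i
  exact (degree_sub_le _ _).trans_lt (max_lt (hu i) (hw i))

theorem tr [Finite F] (T : Set (Fin m → F[X])) (hT : T ⊆ Bx F m E) (A : Set (Fin m → F[X]))
    (hA : A ⊆ Bx F m E) (K : ℕ) (hK : ∀ u ∈ Bx F m E, {w | w ∈ T ∧ u + w ∈ A}.ncard ≤ K) :
    A.ncard * T.ncard ≤ K * (Bx F m E).ncard := by
  classical
  have hB := (bx_card (F := F) (m := m) (E := E)).1
  have hTf := hB.subset hT
  have hAf := hB.subset hA
  have h := Finset.sum_card_bipartiteAbove_eq_sum_card_bipartiteBelow (s := hB.toFinset) (t := hTf.toFinset)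
    (fun u w : Fin m → F[X] => u + w ∈ A)
  have h1 : ∑ w ∈ hTf.toFinset, (hB.toFinset.bipartiteBelow (fun u w : Fin m → F[X] => u + w ∈ A) w).card =
      A.ncard * T.ncard := by
    rw [Finset.sum_congr rfl (g := fun _ => A.ncard), Finset.sum_const, smul_eq_mul, mul_comm,
      Set.ncard_eq_toFinset_card _ hTf]
    intro w hw
    rw [Set.Finite.mem_toFinset] at hw
    rw [Set.ncard_eq_toFinset_card _ hAf]
    refine Finset.card_bij (fun u _ => u + w) ?_ ?_ ?_
    · intro u hu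
      rw [Finset.bipartiteBelow, Finset.mem_filter] at hu
      rw [Set.Finite.mem_toFinset]
      exact hu.2
    · intro u _ v _ huv
      exact add_right_cancel huv
    · intro a ha
      rw [Set.Finite.mem_toFinset] at ha
      refine ⟨a - w, ?_, sub_add_cancel a w⟩
      rw [Finset.bipartiteBelow, Finset.mem_filter, Set.Finite.mem_toFinset]
      refine ⟨bx_sub (hA ha) (hT hw), ?_⟩
      rw [sub_add_cancel]
      exact ha
  have h2 : ∑ u ∈ hB.toFinset, (hTf.toFinset.bipartiteAbove (fun u w : Fin m → F[X] => u + w ∈ A) u).card ≤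
      K * (Bx F m E).ncard := by
    rw [Set.ncard_eq_toFinset_card _ hB, mul_comm, ← smul_eq_mul]
    refine Finset.sum_le_card_nsmul _ _ _ fun u hu => ?_
    rw [Set.Finite.mem_toFinset] at hu
    refine le_trans (le_of_eq ?_) (hK u hu)
    rw [← Set.ncard_coe_finset]
    congr 1
    ext w
    simp [Finset.bipartiteAbove]
  rw [← h1, ← h]
  exact h2

theorem fib [Finite F] (i₀ : Fin m) (A : Set (Fin m → F[X])) (hA : A ⊆ Bx F m E) (K : ℕ)
    (hK : ∀ u ∈ Bx F m E, {w : F[X] | w.degree < ((E i₀ : ℕ) : WithBot ℕ) ∧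
      Function.update u i₀ w ∈ A}.ncard ≤ K) :
    A.ncard * Nat.card F ^ E i₀ ≤ K * (Bx F m E).ncard := by
  classical
  have hD := dl_card (F := F) (E i₀)
  have hinj : Function.Injective (fun w : F[X] => (Pi.single i₀ w : Fin m → F[X])) :=
    Pi.single_injective (M := fun _ : Fin m => F[X]) i₀
  rw [← hD.2, ← Set.ncard_image_of_injective _ hinj]
  refine tr _ ?_ A hA K ?_
  · rintro _ ⟨w, hw, rfl⟩ i
    show ((Pi.single i₀ w : Fin m → F[X]) i).degree < _
    by_cases hi : i = i₀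
    · subst hi
      rw [Pi.single_eq_same]
      exact hw
    · rw [Pi.single_eq_of_ne hi, degree_zero]
      exact WithBot.bot_lt_coe _
  · intro u hu
    refine le_trans ?_ (hK u hu)
    refine Set.ncard_le_ncard_of_injOn (fun w => u i₀ + w i₀) ?_ ?_ (hD.1.subset fun w hw => hw.1)
    · rintro _ ⟨⟨w, hw, rfl⟩, h2⟩
      show (u i₀ + (Pi.single i₀ w : Fin m → F[X]) i₀).degree < _ ∧
        Function.update u i₀ (u i₀ + (Pi.single i₀ w : Fin m → F[X]) i₀) ∈ A
      rw [Pi.single_eq_same]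
      refine ⟨(degree_add_le _ _).trans_lt (max_lt (hu i₀) hw), ?_⟩
      have e : Function.update u i₀ (u i₀ + w) = u + (Pi.single i₀ w : Fin m → F[X]) := by
        funext i
        by_cases hi : i = i₀
        · subst hi
          simp
        · rw [Function.update_of_ne hi, Pi.add_apply, Pi.single_eq_of_ne hi, add_zero]
      rw [e]
      exact h2
    · rintro _ ⟨⟨w, hw, rfl⟩, _⟩ _ ⟨⟨w', hw', rfl⟩, _⟩ h3
      have h4 : u i₀ + (Pi.single i₀ w : Fin m → F[X]) i₀ = u i₀ + (Pi.single i₀ w' : Fin m → F[X]) i₀ := h3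
      rw [Pi.single_eq_same, Pi.single_eq_same] at h4
      rw [add_left_cancel h4]

theorem fib2 [Finite F] (i₁ i₂ : Fin m) (h12 : i₁ ≠ i₂) (A : Set (Fin m → F[X]))
    (hA : A ⊆ Bx F m E) (S₁ S₂ : Set F[X]) (hA1 : ∀ u ∈ A, u i₁ ∈ S₁) (hA2 : ∀ u ∈ A, u i₂ ∈ S₂)
    (K₁ K₂ : ℕ) (h1 : {w : F[X] | w.degree < ((E i₁ : ℕ) : WithBot ℕ) ∧ w ∈ S₁}.ncard ≤ K₁)
    (h2 : {w : F[X] | w.degree < ((E i₂ : ℕ) : WithBot ℕ) ∧ w ∈ S₂}.ncard ≤ K₂) :
    A.ncard * Nat.card F ^ (E i₁ + E i₂) ≤ K₁ * K₂ * (Bx F m E).ncard := by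
  classical
  have hD1 := dl_card (F := F) (E i₁)
  have hD2 := dl_card (F := F) (E i₂)
  have e1 : ∀ w : F[X] × F[X], (Pi.single i₁ w.1 + Pi.single i₂ w.2 : Fin m → F[X]) i₁ = w.1 := fun w => by
    rw [Pi.add_apply, Pi.single_eq_same, Pi.single_eq_of_ne h12, add_zero]
  have e2 : ∀ w : F[X] × F[X], (Pi.single i₁ w.1 + Pi.single i₂ w.2 : Fin m → F[X]) i₂ = w.2 := fun w => by
    rw [Pi.add_apply, Pi.single_eq_same, Pi.single_eq_of_ne h12.symm, zero_add]
  have hinj : Function.Injective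
      (fun w : F[X] × F[X] => (Pi.single i₁ w.1 + Pi.single i₂ w.2 : Fin m → F[X])) := by
    intro w w' h
    have h3 : (Pi.single i₁ w.1 + Pi.single i₂ w.2 : Fin m → F[X]) = Pi.single i₁ w'.1 + Pi.single i₂ w'.2 := h
    refine Prod.ext ?_ ?_
    · rw [← e1 w, h3, e1]
    · rw [← e2 w, h3, e2]
  rw [pow_add, ← hD1.2, ← hD2.2, ← Set.ncard_prod, ← Set.ncard_image_of_injective _ hinj]
  refine tr _ ?_ A hA _ ?_
  · rintro _ ⟨w, hw, rfl⟩ i
    show ((Pi.single i₁ w.1 + Pi.single i₂ w.2 : Fin m → F[X]) i).degree < _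
    by_cases hi1 : i = i₁
    · subst hi1
      rw [e1]
      exact hw.1
    · by_cases hi2 : i = i₂
      · subst hi2
        rw [e2]
        exact hw.2
      · rw [Pi.add_apply, Pi.single_eq_of_ne hi1, Pi.single_eq_of_ne hi2, add_zero, degree_zero]
        exact WithBot.bot_lt_coe _
  · intro u hu
    refine le_trans ?_ (Nat.mul_le_mul h1 h2)
    rw [← Set.ncard_prod]
    refine Set.ncard_le_ncard_of_injOn (fun w => (u i₁ + w i₁, u i₂ + w i₂)) ?_ ?_
      ((hD1.1.subset fun w hw => hw.1).prod (hD2.1.subset fun w hw => hw.1))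
    · rintro _ ⟨⟨w, hw, rfl⟩, h3⟩
      have a1 := hA1 _ h3
      have a2 := hA2 _ h3
      have a1' : u i₁ + w.1 ∈ S₁ := by
        have e : (u + (Pi.single i₁ w.1 + Pi.single i₂ w.2 : Fin m → F[X])) i₁ = u i₁ + w.1 := by
          rw [Pi.add_apply, e1]
        rw [← e]
        exact a1
      have a2' : u i₂ + w.2 ∈ S₂ := by
        have e : (u + (Pi.single i₁ w.1 + Pi.single i₂ w.2 : Fin m → F[X])) i₂ = u i₂ + w.2 := by
          rw [Pi.add_apply, e2]
        rw [← e]
        exact a2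
      refine Set.mem_prod.2 ⟨?_, ?_⟩
      · show _ ∧ _
        simp only [e1]
        exact ⟨(degree_add_le _ _).trans_lt (max_lt (hu i₁) hw.1), a1'⟩
      · show _ ∧ _
        simp only [e2]
        exact ⟨(degree_add_le _ _).trans_lt (max_lt (hu i₂) hw.2), a2'⟩
    · rintro _ ⟨⟨w, hw, rfl⟩, _⟩ _ ⟨⟨w', hw', rfl⟩, _⟩ h3
      have h4 := congrArg Prod.fst h3
      have h5 := congrArg Prod.snd h3
      simp only [e1, e2] at h4 h5
      show (Pi.single i₁ w.1 + Pi.single i₂ w.2 : Fin m → F[X]) = Pi.single i₁ w'.1 + Pi.single i₂ w'.2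
      rw [add_left_cancel h4, add_left_cancel h5]

end H13.SM
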